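import Pool.Agent.H458.AU.Tw

/-!
# Project AU (helper458): the exceptional set
-/

set_option autoImplicit false
set_option linter.all false

open Polynomial Matrix IsDedekindDomain NumberField
open scoped Classical

namespace Pool.Agent.H458.AU

open Pool.Agent.H459.UF (Unr Deg1 fo GoodM)
open Pool.Agent.N352.PF (nv)
open Pool.Agent.N783.PF (Bd Cg sp rd Ht GoodS LBad Weak dsc fF Dp SelZero)
open Pool.Agent.N61.PF (pol pol_monic pol_natDegree pol_coeff0 pol_coeff1 pol_coeff2 eq_pol)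

section

variable {F : Type} [Field F] [NumberField F]

/-- The pair of the twist by `D`. -/
def twp (p : 𝓞 F × 𝓞 F) (D : 𝓞 F) : 𝓞 F × 𝓞 F := (p.1 * D ^ 2, p.2 * D ^ 3)

/-- The twist by one of the numbers in `𝒟` is good over all extensions in the class. -/
def Tw (R : ℕ) (𝒟 : Finset ℕ) (p : 𝓞 F × 𝓞 F) : Prop :=
  ∃ D ∈ 𝒟, ∀ (M : Type) [Field M] [NumberField M] [Algebra F M] [IsGalois F M] (n : ℕ),
    Module.finrank F M = 2 ^ n → ClsM F M R p → GoodM F M (twp p (D : 𝓞 F))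

/-- A prime over `q`. -/
noncomputable def qq (F : Type) [Field F] [NumberField F] (W q : ℕ) : Ideal (𝓞 F) :=
  if h : ∃ 𝔮 : Ideal (𝓞 F), PrQ W q 𝔮 ∧ Ideal.absNorm 𝔮 = q then h.choose else ⊥

theorem qq_spec {W q : ℕ} {𝔮 : Ideal (𝓞 F)} (h : PrQ W q 𝔮 ∧ Ideal.absNorm 𝔮 = q) :
    PrQ W q (qq F W q) ∧ Ideal.absNorm (qq F W q) = q := by
  have h1 : ∃ 𝔮 : Ideal (𝓞 F), PrQ W q 𝔮 ∧ Ideal.absNorm 𝔮 = q := ⟨𝔮, h⟩
  unfold qq
  rw [dif_pos h1]
  exact h1.choose_spec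

end

/-- The blocks of primes. -/
theorem blocks (hDEG : S_DEG) (hGC : S_GC) (F : Type) [Field F] [NumberField F] (W : ℕ) (M : ℝ)
    (hW : 0 < W) : ∀ k : ℕ, ∃ Bl : ℕ → Finset ℕ, (∀ i < k, ∀ q ∈ Bl i, PrQ W q (qq F W q)) ∧
    (∀ i < k, ∀ j < k, i ≠ j → Disjoint (Bl i) (Bl j)) ∧
    ∀ i < k, M ≤ ∑ q ∈ Bl i, dl q (qq F W q) := by
  obtain ⟨c, hc, hGC⟩ := hGC F
  intro k
  induction k with
  | zero => exact ⟨fun _ => ∅, fun i hi => absurd hi (by omega), fun i hi => absurd hi (by omega),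
      fun i hi => absurd hi (by omega)⟩
  | succ k ih =>
    obtain ⟨Bl, h1, h2, h3⟩ := ih
    obtain ⟨X₀, hX₀⟩ : ∃ X₀ : ℕ, ∀ i < k, ∀ q ∈ Bl i, q ≤ X₀ := by
      refine ⟨((Finset.range k).biUnion Bl).sup id, fun i hi q hq => ?_⟩
      exact Finset.le_sup (f := id) (Finset.mem_biUnion.2 ⟨i, Finset.mem_range.2 hi, hq⟩)
    obtain ⟨B, 𝔮, hB, hM⟩ := hDEG F W X₀ (M / c) hW
    have hB' : ∀ q ∈ B, PrQ W q (qq F W q) ∧ Ideal.absNorm (qq F W q) = q := fun q hq =>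
      qq_spec ⟨(hB q hq).2.1, (hB q hq).2.2⟩
    have hdj : ∀ i < k, Disjoint (Bl i) B := by
      intro i hi
      rw [Finset.disjoint_left]
      intro q hq hqB
      have h4 := hX₀ i hi q hq
      have h5 := (hB q hqB).1
      omega
    refine ⟨Function.update Bl k B, ?_, ?_, ?_⟩
    · intro i hi q hq
      rcases Nat.lt_succ_iff_lt_or_eq.1 hi with h | h
      · rw [Function.update_of_ne (by omega)] at hq
        exact h1 i h q hq
      · subst h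
        rw [Function.update_self] at hq
        exact (hB' q hq).1
    · intro i hi j hj hij
      rcases Nat.lt_succ_iff_lt_or_eq.1 hi with h | h
      · rcases Nat.lt_succ_iff_lt_or_eq.1 hj with h' | h'
        · rw [Function.update_of_ne (by omega), Function.update_of_ne (by omega)]
          exact h2 i h j h' hij
        · subst h'
          rw [Function.update_of_ne (by omega), Function.update_self]
          exact hdj i h
      · subst h
        rcases Nat.lt_succ_iff_lt_or_eq.1 hj with h' | h'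
        · rw [Function.update_self, Function.update_of_ne (by omega)]
          exact (hdj j h').symm
        · exact absurd h'.symm hij
    · intro i hi
      rcases Nat.lt_succ_iff_lt_or_eq.1 hi with h | h
      · rw [Function.update_of_ne (by omega)]
        exact h3 i h
      · subst h
        rw [Function.update_self]
        calc M = c * (M / c) := by field_simp
          _ ≤ c * ∑ q ∈ B, 1 / (q : ℝ) := mul_le_mul_of_nonneg_left hM hc.le
          _ = ∑ q ∈ B, c / q := by rw [Finset.mul_sum]; exact Finset.sum_congr rfl fun q _ => by ring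
          _ ≤ _ := Finset.sum_le_sum fun q hq => hGC W q _ hW (hB' q hq).1 (hB' q hq).2

/-- **The exceptional set.** -/
theorem core (hTAIL : S_TAIL) (hFEW : S_FEW) (hDC : S_DC) (hDEG : S_DEG) (hGC : S_GC)
    (F : Type) [Field F] [NumberField F] (W₀ : ℕ) (hW₀ : 0 < W₀) (ε : ℝ) (hε : 0 < ε) :
    ∃ (R : ℕ) (𝒟 : Finset ℕ), 0 < R ∧ W₀ ∣ R ∧ 1 ∈ 𝒟 ∧
    (∀ D ∈ 𝒟, Squarefree D ∧ D % (8 * W₀) = 1 % (8 * W₀) ∧ D ∣ R) ∧
    ∃ B₀ : ℕ, ∀ B ≥ B₀, {f : (𝓞 F)[X] | Ht 1 B f}.Finite ∧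
    (({f : (𝓞 F)[X] | Ht 1 B f ∧ Irreducible (fF f) ∧ ∃ p : 𝓞 F × 𝓞 F,
      f.coeff 1 = 16 * p.1 ∧ f.coeff 0 = 64 * p.2 ∧ ¬ Tw R 𝒟 p}.ncard : ℝ)) ≤
      ε * (B : ℝ) ^ (5 * Module.finrank ℚ F) := by
  obtain ⟨d, hd⟩ : ∃ d, d = Module.finrank ℚ F := ⟨_, rfl⟩
  obtain ⟨κ, hκ⟩ := tw_of F
  obtain ⟨C, K, hDC⟩ := hDC F κ
  obtain ⟨Mt, Bt, hT⟩ := hTAIL F (ε / 4) (by positivity)
  -- the number of the blocks
  obtain ⟨A, hA⟩ : ∃ A : ℝ, A = C * (4 * 2 ^ κ) ^ (5 * d) := ⟨_, rfl⟩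
  have hA0 : 0 ≤ A := by rw [hA]; positivity
  obtain ⟨k, hk⟩ : ∃ k : ℕ, (5 / 9 : ℝ) ^ k * A ≤ ε / 4 := by
    obtain ⟨k, hk⟩ := exists_pow_lt_of_lt_one (show (0 : ℝ) < ε / 4 / (A + 1) by positivity)
      (show (5 / 9 : ℝ) < 1 by norm_num)
    refine ⟨k, ?_⟩
    rw [lt_div_iff₀ (by positivity)] at hk
    have h1 : (0 : ℝ) ≤ (5 / 9 : ℝ) ^ k := by positivity
    nlinarith
  obtain ⟨M₁, hM₁, hFEW⟩ := hFEW F (ε / (4 * (k + 1))) (by positivity)
  obtain ⟨W, hW⟩ : ∃ W : ℕ, W = 2 * W₀ * (Mt + κ + K + 1).factorial := ⟨_, rfl⟩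
  have hfac : 0 < (Mt + κ + K + 1).factorial := Nat.factorial_pos _
  have hW0 : 0 < W := by rw [hW]; positivity
  have h2W : 2 ∣ W := by rw [hW, mul_assoc]; exact dvd_mul_right _ _
  have hW₀W : W₀ ∣ W := by rw [hW]; exact Dvd.intro_left _ (by ring : (2 * (Mt + κ + K + 1).factorial) * W₀ = _)
  have hle : Mt + κ + K + 1 ≤ W := by
    calc Mt + κ + K + 1 ≤ (Mt + κ + K + 1).factorial := Nat.self_le_factorial _
      _ ≤ 2 * W₀ * (Mt + κ + K + 1).factorial := Nat.le_mul_of_pos_left _ (by positivity)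
      _ = W := hW.symm
  obtain ⟨Bl, hB1, hB2, hB3⟩ := blocks hDEG hGC F W M₁ hW0 k
  have hpos : ∀ i : Fin k, 0 < ∑ q ∈ Bl i, dl q (qq F W q) := fun i => lt_of_lt_of_le hM₁ (hB3 i i.2)
  obtain ⟨N₀, hN₀⟩ := hDC W k (fun i => Bl i) (qq F W) (by omega) hW0 (fun i => hB1 i i.2)
    (fun i j hij => hB2 i i.2 j j.2 fun h => hij (Fin.ext h)) hpos
  have hF : ∀ i : Fin k, ∃ B₀ : ℕ, ∀ B ≥ B₀,
      (({f : (𝓞 F)[X] | Ht 1 B f ∧ (((Bl i).filter fun q => Gq q (qq F W q) (f.coeff 1)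
        (f.coeff 0)).card : ℝ) < 9 / 10 * ∑ q ∈ Bl i, dl q (qq F W q)}.ncard : ℝ)) ≤
        ε / (4 * (k + 1)) * (B : ℝ) ^ (5 * Module.finrank ℚ F) := fun i =>
    hFEW W (Bl i) (qq F W) (hB1 i i.2) (hB3 i i.2)
  choose Bf hBf using hF
  obtain ⟨U, hU⟩ : ∃ U : Finset ℕ, U = Finset.univ.biUnion fun i : Fin k => Bl i := ⟨_, rfl⟩
  have hUp : ∀ q ∈ U, PrQ W q (qq F W q) := by
    intro q hq
    rw [hU, Finset.mem_biUnion] at hq
    obtain ⟨i, -, hq⟩ := hq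
    exact hB1 i i.2 q hq
  obtain ⟨R, hR⟩ : ∃ R : ℕ, R = W * ∏ q ∈ U, q := ⟨_, rfl⟩
  have hWR : W ∣ R := by rw [hR]; exact dvd_mul_right _ _
  have hUR : ∀ q ∈ U, q ∣ R := fun q hq => by
    rw [hR]
    exact Dvd.dvd.mul_left (Finset.dvd_prod_of_mem (fun q => q) hq) W
  have hmod : ∀ J ⊆ U, (∏ q ∈ J, q) % (8 * W) = 1 % (8 * W) := fun J hJ =>
    Pool.Agent.H459.UD.dp_mod (fun q hq => (hUp q hq).mod) hJ
  refine ⟨R, U.powerset.image fun J => ∏ q ∈ J, q, ?_, hW₀W.trans hWR, ?_, ?_,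
    max (max Bt 1) (max (Finset.univ.sup Bf) (4 ^ N₀)), fun B hB => ?_⟩
  · rw [hR]
    exact Nat.mul_pos hW0 (Finset.prod_pos fun q hq => (hUp q hq).pr.pos)
  · rw [Finset.mem_image]
    exact ⟨∅, Finset.empty_mem_powerset _, rfl⟩
  · intro D hD
    rw [Finset.mem_image] at hD
    obtain ⟨J, hJ, rfl⟩ := hD
    rw [Finset.mem_powerset] at hJ
    refine ⟨?_, ?_, ?_⟩
    · refine Finset.squarefree_prod_of_pairwise_isCoprime ?_ fun q hq => (hUp q (hJ hq)).pr.squarefree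
      intro q hq q' hq' hne
      exact Nat.coprime_iff_isRelPrime.1 ((Nat.coprime_primes (hUp q (hJ hq)).pr
        (hUp q' (hJ hq')).pr).2 hne)
    · have h1 := hmod J hJ
      have h2 : 8 * W₀ ∣ 8 * W := Nat.mul_dvd_mul_left 8 hW₀W
      have h3 : (∏ q ∈ J, q) ≡ 1 [MOD 8 * W] := h1
      exact h3.of_dvd h2
    · exact Finset.prod_primes_dvd R (fun q hq => Nat.prime_iff.1 (hUp q (hJ hq)).pr)
        fun q hq => hUR q (hJ hq)
  · have hBt : Bt ≤ B := ((le_max_left _ _).trans (le_max_left _ _)).trans hB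
    have hB1' : 1 ≤ B := ((le_max_right _ _).trans (le_max_left _ _)).trans hB
    have hBf' : ∀ i, Bf i ≤ B := fun i => ((Finset.le_sup (f := Bf) (Finset.mem_univ i)).trans
      ((le_max_left _ _).trans (le_max_right _ _))).trans hB
    have hBN : 4 ^ N₀ ≤ B := ((le_max_right _ _).trans (le_max_right _ _)).trans hB
    obtain ⟨hfin, hT⟩ := hT B hBt
    refine ⟨hfin, ?_⟩
    obtain ⟨N, hNa, hNb⟩ : ∃ N : ℕ, 2 ^ κ * B ≤ 4 ^ N ∧ 4 ^ N ≤ 4 * (2 ^ κ * B) := by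
      refine ⟨Nat.log 4 (2 ^ κ * B) + 1, (Nat.lt_pow_succ_log_self (by norm_num) _).le, ?_⟩
      rw [pow_succ, mul_comm]
      refine Nat.mul_le_mul_left 4 (Nat.pow_log_le_self 4 ?_)
      positivity
    have hNN : N₀ ≤ N := by
      have e1 : 4 ^ N₀ ≤ 4 ^ N := hBN.trans (le_trans (Nat.le_mul_of_pos_left _ (by positivity)) hNa)
      exact (Nat.pow_le_pow_iff_right (by norm_num)).1 e1
    obtain ⟨hDf, hD⟩ := hN₀ N hNN
    -- the four sets
    obtain ⟨E₁, hE₁⟩ : ∃ E₁ : Set (𝓞 F)[X], E₁ = {f : (𝓞 F)[X] | Ht 1 B f ∧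
      ∃ v : HeightOneSpectrum (𝓞 F), Mt < nv v ∧ dsc 1 f ∈ v.asIdeal ^ 2 ∧
      ¬ (B ^ Module.finrank ℚ F ≤ Ideal.absNorm v.asIdeal ^ 2 ∧ Weak v.asIdeal f)} := ⟨_, rfl⟩
    obtain ⟨E₂, hE₂⟩ : ∃ E₂ : Fin k → Set (𝓞 F)[X], E₂ = fun (i : Fin k) => {f : (𝓞 F)[X] | Ht 1 B f ∧
      (((Bl i).filter fun q => Gq q (qq F W q) (f.coeff 1) (f.coeff 0)).card : ℝ) <
        9 / 10 * ∑ q ∈ Bl i, dl q (qq F W q)} := ⟨_, rfl⟩
    obtain ⟨E₃, hE₃⟩ : ∃ E₃ : Set (𝓞 F)[X], E₃ = {f : (𝓞 F)[X] | f = pl (f.coeff 1) (f.coeff 0) ∧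
      (∀ i : Fin k, 9 / 10 * ∑ q ∈ Bl i, dl q (qq F W q) ≤
      (((Bl i).filter fun q => Gq q (qq F W q) (f.coeff 1) (f.coeff 0)).card : ℝ)) ∧
      ∀ τ : Fin k → ℕ, (∀ i : Fin k, τ i ∈ Bl i) →
        (∀ i : Fin k, Gq (τ i) (qq F W (τ i)) (f.coeff 1) (f.coeff 0)) →
        BadS N κ (Finset.univ.image τ) (qq F W) f} := ⟨_, rfl⟩
    rw [← hE₁] at hT
    rw [← hE₃] at hD hDf
    have hsub : {f : (𝓞 F)[X] | Ht 1 B f ∧ Irreducible (fF f) ∧ ∃ p : 𝓞 F × 𝓞 F,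
        f.coeff 1 = 16 * p.1 ∧ f.coeff 0 = 64 * p.2 ∧
        ¬ Tw R (U.powerset.image fun J => ∏ q ∈ J, q) p} ⊆
        (E₁ ∪ ⋃ i : Fin k, E₂ i) ∪ ({f : (𝓞 F)[X] | Ht 1 B f} ∩ E₃) := by
      rintro f ⟨hHt, hirr, ⟨a, b⟩, ha, hb, hTw⟩
      by_contra hcon
      rw [Set.mem_union, Set.mem_union, not_or, not_or] at hcon
      obtain ⟨⟨hc1, hc2⟩, hc3⟩ := hcon
      have hc2' : ∀ i : Fin k, 9 / 10 * ∑ q ∈ Bl i, dl q (qq F W q) ≤
          (((Bl i).filter fun q => Gq q (qq F W q) (f.coeff 1) (f.coeff 0)).card : ℝ) := by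
        intro i
        by_contra hlt
        apply hc2
        rw [Set.mem_iUnion]
        refine ⟨i, ?_⟩
        rw [hE₂]
        exact ⟨hHt, not_le.1 hlt⟩
      have hc3' : f ∉ E₃ := fun h => hc3 ⟨hHt, h⟩
      rw [hE₃, Set.mem_setOf_eq, not_and, not_and] at hc3'
      have hc4 := hc3' (eq_pol hHt) hc2'
      push Not at hc4
      obtain ⟨τ, hτ1, hτ2, hτ3⟩ := hc4
      have hSU : Finset.univ.image τ ⊆ U := by
        intro q hq
        rw [Finset.mem_image] at hq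
        obtain ⟨i, -, rfl⟩ := hq
        rw [hU, Finset.mem_biUnion]
        exact ⟨i, Finset.mem_univ _, hτ1 i⟩
      obtain ⟨J, hJ, hgood⟩ := hκ B N W (Finset.univ.image τ) (qq F W) f (by omega) hW0 h2W
        (fun q hq => hUp q (hSU hq)) hHt (fun q hq => by
          rw [Finset.mem_image] at hq
          obtain ⟨i, -, rfl⟩ := hq
          exact hτ2 i) (fun v hv hdv => by
          by_contra hnot
          apply hc1
          rw [hE₁]
          refine ⟨hHt, v, ?_, hdv, hnot⟩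
          by_contra hle'
          apply hv
          have h1 : (nv v : 𝓞 F) ∈ v.asIdeal := Ideal.absNorm_mem v.asIdeal
          have h2 : nv v ∣ W := by
            rw [hW]
            refine Dvd.dvd.mul_left (Nat.dvd_factorial ?_ (by omega)) _
            refine Nat.pos_of_ne_zero fun h0 => ?_
            have h3 := Ideal.absNorm_eq_zero_iff.1 h0
            exact v.ne_bot h3
          obtain ⟨m, hm⟩ := h2
          rw [hm, Nat.cast_mul]
          exact Ideal.mul_mem_right _ _ h1) hNa hB1' hτ3 hirr a b ha hb R hWR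
        (fun q hq => hUR q (hSU hq))
      apply hTw
      refine ⟨∏ q ∈ J, q, Finset.mem_image.2 ⟨J, Finset.mem_powerset.2 (hJ.trans hSU), rfl⟩, ?_⟩
      exact hgood
    have hE1f : E₁.Finite := hfin.subset (by rw [hE₁]; exact fun f hf => hf.1)
    have hE2f : ∀ i, (E₂ i).Finite := fun i => hfin.subset (by rw [hE₂]; exact fun f hf => hf.1)
    have hE3f : ({f : (𝓞 F)[X] | Ht 1 B f} ∩ E₃).Finite := hfin.subset Set.inter_subset_left
    have hE2u : (⋃ i : Fin k, E₂ i).Finite := Set.finite_iUnion hE2f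
    -- counting
    obtain ⟨X, hX⟩ : ∃ X : ℝ, X = (B : ℝ) ^ (5 * d) := ⟨_, rfl⟩
    have hX0 : 0 ≤ X := by rw [hX]; positivity
    rw [← hd, ← hX] at hT ⊢
    have hc2 : ∀ i : Fin k, ((E₂ i).ncard : ℝ) ≤ ε / (4 * (k + 1)) * X := by
      intro i
      have h1 := hBf i B (hBf' i)
      rw [← hd, ← hX] at h1
      rw [hE₂]
      exact h1
    have hc2u : ((⋃ i : Fin k, E₂ i).ncard : ℝ) ≤ ε / 4 * X := by
      have h1 : (⋃ i : Fin k, E₂ i).ncard ≤ ∑ i : Fin k, (E₂ i).ncard := by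
        have h2 : (⋃ i : Fin k, E₂ i) = ⋃ i ∈ (Finset.univ : Finset (Fin k)), E₂ i := by simp
        rw [h2]
        exact Pool.Agent.N270.PJ.ncard_biUnion_le E₂ Finset.univ
      have h2 : (((⋃ i : Fin k, E₂ i).ncard : ℕ) : ℝ) ≤ ∑ i : Fin k, ((E₂ i).ncard : ℝ) := by
        exact_mod_cast h1
      refine h2.trans ((Finset.sum_le_sum fun i _ => hc2 i).trans ?_)
      rw [Finset.sum_const, Finset.card_univ, Fintype.card_fin, nsmul_eq_mul]
      have hk0 : (0 : ℝ) < k + 1 := by positivity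
      have h3 : (k : ℝ) * (ε / (4 * (k + 1)) * X) = (k / (k + 1)) * (ε / 4 * X) := by
        field_simp
      rw [h3]
      have h4 : (k : ℝ) / (k + 1) ≤ 1 := by
        rw [div_le_one hk0]
        linarith
      have h5 : 0 ≤ ε / 4 * X := by positivity
      nlinarith
    have hc3 : (E₃.ncard : ℝ) ≤ ε / 4 * X := by
      have h1 : (9 : ℝ) ^ k * E₃.ncard ≤ 5 ^ k * (C * 2 ^ (d * (10 * N))) := by
        rw [hd]
        exact_mod_cast hD
      have h2 : (2 : ℝ) ^ (d * (10 * N)) ≤ (4 * 2 ^ κ) ^ (5 * d) * X := by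
        have h3 : (4 : ℝ) ^ N ≤ 4 * 2 ^ κ * B := by
          have : ((4 ^ N : ℕ) : ℝ) ≤ ((4 * (2 ^ κ * B) : ℕ) : ℝ) := by exact_mod_cast hNb
          push_cast at this
          linarith
        calc (2 : ℝ) ^ (d * (10 * N)) = (4 ^ N) ^ (5 * d) := by
              rw [show (4 : ℝ) = 2 ^ 2 by norm_num, ← pow_mul, ← pow_mul]
              congr 1
              ring
          _ ≤ (4 * 2 ^ κ * B) ^ (5 * d) := pow_le_pow_left₀ (by positivity) h3 _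
          _ = _ := by rw [mul_pow _ (B : ℝ), hX]
      have h9 : (0 : ℝ) < 9 ^ k := by positivity
      have h4 : (E₃.ncard : ℝ) ≤ (5 / 9) ^ k * (C * 2 ^ (d * (10 * N))) := by
        rw [div_pow, div_mul_eq_mul_div, le_div_iff₀ h9]
        linarith
      refine h4.trans ?_
      calc (5 / 9 : ℝ) ^ k * (C * 2 ^ (d * (10 * N))) ≤
            (5 / 9 : ℝ) ^ k * (C * ((4 * 2 ^ κ) ^ (5 * d) * X)) := by gcongr
        _ = (5 / 9 : ℝ) ^ k * A * X := by rw [hA]; ring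
        _ ≤ ε / 4 * X := mul_le_mul_of_nonneg_right hk hX0
    have hc3' : (({f : (𝓞 F)[X] | Ht 1 B f} ∩ E₃).ncard : ℝ) ≤ ε / 4 * X := by
      refine le_trans ?_ hc3
      exact_mod_cast Set.ncard_le_ncard Set.inter_subset_right hDf
    have h5 := Set.ncard_le_ncard hsub ((hE1f.union hE2u).union hE3f)
    have h6 := Set.ncard_union_le (E₁ ∪ ⋃ i : Fin k, E₂ i) ({f : (𝓞 F)[X] | Ht 1 B f} ∩ E₃)
    have h7 := Set.ncard_union_le E₁ (⋃ i : Fin k, E₂ i)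
    have h8 : (({f : (𝓞 F)[X] | Ht 1 B f ∧ Irreducible (fF f) ∧ ∃ p : 𝓞 F × 𝓞 F,
        f.coeff 1 = 16 * p.1 ∧ f.coeff 0 = 64 * p.2 ∧
        ¬ Tw R (U.powerset.image fun J => ∏ q ∈ J, q) p}.ncard : ℕ) : ℝ) ≤
        (E₁.ncard : ℝ) + ((⋃ i : Fin k, E₂ i).ncard : ℝ) +
        (({f : (𝓞 F)[X] | Ht 1 B f} ∩ E₃).ncard : ℝ) := by
      exact_mod_cast h5.trans (h6.trans (Nat.add_le_add_right h7 _))
    refine h8.trans ?_
    have h9 : 0 ≤ ε / 4 * X := by positivity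
    linarith

end Pool.Agent.H458.AU
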