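import Pool.Agent.H458.AU.Def

/-!
# Double counting over transversals (`S_DC` of the project AU; proof by helper653)
-/

set_option autoImplicit false

open Polynomial IsDedekindDomain NumberField
open scoped Classical

namespace Pool.Agent.H458.AU.DC2

open Pool.Agent.H458.AU

/-- the abstract double counting -/
theorem count {α : Type} {k : ℕ} (Bl : Fin k → Finset ℕ) (G : α → ℕ → Prop) (B : Finset α)
    (A : (Fin k → ℕ) → Set α) (hA : ∀ τ ∈ Fintype.piFinset Bl, (A τ).Finite)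
    (hsub : ∀ f ∈ B, ∀ τ ∈ Fintype.piFinset Bl, (∀ i, G f (τ i)) → f ∈ A τ)
    (m : Fin k → ℝ) (hm : ∀ i, 0 ≤ m i)
    (hB : ∀ f ∈ B, ∀ i, m i ≤ (((Bl i).filter fun q => G f q).card : ℝ)) :
    (∏ i, m i) * (B.card : ℝ) ≤ ∑ τ ∈ Fintype.piFinset Bl, ((A τ).ncard : ℝ) := by
  have h1 : ∀ f ∈ B, (∏ i, m i) ≤
      (((Fintype.piFinset Bl).filter fun τ => ∀ i, G f (τ i)).card : ℝ) := by
    intro f hf
    have h2 : ((Fintype.piFinset Bl).filter fun τ => ∀ i, G f (τ i)) =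
        Fintype.piFinset (fun i => (Bl i).filter fun q => G f q) := by
      ext τ
      simp only [Finset.mem_filter, Fintype.mem_piFinset]
      exact ⟨fun h i => ⟨h.1 i, h.2 i⟩, fun h => ⟨fun i => (h i).1, fun i => (h i).2⟩⟩
    rw [h2, Fintype.card_piFinset, Nat.cast_prod]
    exact Finset.prod_le_prod (fun i _ => hm i) (fun i _ => hB f hf i)
  have h3 : (∏ i, m i) * (B.card : ℝ) ≤
      ∑ f ∈ B, (((Fintype.piFinset Bl).filter fun τ => ∀ i, G f (τ i)).card : ℝ) := by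
    rw [mul_comm, ← nsmul_eq_mul, ← Finset.sum_const]
    exact Finset.sum_le_sum h1
  refine h3.trans ?_
  have h4 := Finset.sum_card_bipartiteAbove_eq_sum_card_bipartiteBelow (s := B)
    (t := Fintype.piFinset Bl) (fun f τ => ∀ i, G f (τ i))
  have h5 : ∑ f ∈ B, (((Fintype.piFinset Bl).filter fun τ => ∀ i, G f (τ i)).card : ℝ) =
      ∑ τ ∈ Fintype.piFinset Bl, ((B.filter fun f => ∀ i, G f (τ i)).card : ℝ) := by
    exact_mod_cast h4
  rw [h5]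
  apply Finset.sum_le_sum
  intro τ hτ
  have h6 : (B.filter fun f => ∀ i, G f (τ i)).card ≤ (A τ).ncard := by
    rw [← Set.ncard_coe_finset]
    apply Set.ncard_le_ncard _ (hA τ hτ)
    intro f hf
    rw [Finset.mem_coe, Finset.mem_filter] at hf
    exact hsub f hf.1 τ hτ hf.2
  exact_mod_cast h6

theorem arith {k : ℕ} (M : Fin k → ℝ) (hM : ∀ i, 0 < M i) (n C E : ℝ)
    (h : (∏ i, (9 / 10 * M i)) * n ≤ C * E * ∏ i, (M i / 2)) :
    9 ^ k * n ≤ 5 ^ k * (C * E) := by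
  have hP : 0 < ∏ i, M i := Finset.prod_pos fun i _ => hM i
  rw [Finset.prod_mul_distrib, Finset.prod_const, Finset.card_univ, Fintype.card_fin,
    Finset.prod_div_distrib, Finset.prod_const, Finset.card_univ, Fintype.card_fin] at h
  have h2 : (9 / 10 : ℝ) ^ k * n ≤ C * E / 2 ^ k := by
    have h3 : (∏ i, M i) * ((9 / 10 : ℝ) ^ k * n) ≤ (∏ i, M i) * (C * E / 2 ^ k) := by
      calc (∏ i, M i) * ((9 / 10 : ℝ) ^ k * n) = (9 / 10) ^ k * (∏ i, M i) * n := by ring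
        _ ≤ C * E * ((∏ i, M i) / 2 ^ k) := h
        _ = (∏ i, M i) * (C * E / 2 ^ k) := by ring
    exact le_of_mul_le_mul_left h3 hP
  have h10 : (0 : ℝ) < 10 ^ k := by positivity
  have h4 : (10 : ℝ) ^ k * ((9 / 10 : ℝ) ^ k * n) ≤ 10 ^ k * (C * E / 2 ^ k) :=
    mul_le_mul_of_nonneg_left h2 h10.le
  have h5 : (10 : ℝ) ^ k * ((9 / 10 : ℝ) ^ k * n) = 9 ^ k * n := by
    rw [← mul_assoc, ← mul_pow]
    norm_num
  have h6 : (10 : ℝ) ^ k * (C * E / 2 ^ k) = 5 ^ k * (C * E) := by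
    have : (10 : ℝ) ^ k = 5 ^ k * 2 ^ k := by
      rw [← mul_pow]; norm_num
    rw [this]
    field_simp
  rw [h5, h6] at h4
  exact h4

theorem dc (h : S_BDS) : S_DC := by
  intro F _ _ κ
  obtain ⟨C, K, hCK⟩ := h F κ
  refine ⟨C, K, ?_⟩
  intro W k Bl 𝔮 hKW hW hPr hdis hpos
  have hinj : ∀ τ ∈ Fintype.piFinset Bl, Function.Injective τ := by
    intro τ hτ i j hij
    by_contra hne
    rw [Fintype.mem_piFinset] at hτ
    have h1 := hτ i
    rw [hij] at h1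
    exact (Finset.disjoint_left.1 (hdis i j hne)) h1 (hτ j)
  have hS : ∀ τ ∈ Fintype.piFinset Bl, ∀ q ∈ Finset.univ.image τ, PrQ W q (𝔮 q) := by
    intro τ hτ q hq
    obtain ⟨i, -, rfl⟩ := Finset.mem_image.1 hq
    exact hPr i _ (Fintype.mem_piFinset.1 hτ i)
  have hex : ∀ τ : Fin k → ℕ, ∃ N₀ : ℕ, τ ∈ Fintype.piFinset Bl → ∀ N ≥ N₀,
      {f : (𝓞 F)[X] | f = pl (f.coeff 1) (f.coeff 0) ∧
        (∀ q ∈ Finset.univ.image τ, Gq q (𝔮 q) (f.coeff 1) (f.coeff 0)) ∧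
        BadS N κ (Finset.univ.image τ) 𝔮 f}.Finite ∧
      2 ^ (Finset.univ.image τ).card *
        (∏ q ∈ Finset.univ.image τ, q) ^ (2 * Module.finrank ℚ F) *
        {f : (𝓞 F)[X] | f = pl (f.coeff 1) (f.coeff 0) ∧
          (∀ q ∈ Finset.univ.image τ, Gq q (𝔮 q) (f.coeff 1) (f.coeff 0)) ∧
          BadS N κ (Finset.univ.image τ) 𝔮 f}.ncard ≤
        C * (∏ q ∈ Finset.univ.image τ, (GR q (𝔮 q)).ncard) *
          2 ^ (Module.finrank ℚ F * (10 * N)) := by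
    intro τ
    by_cases hτ : τ ∈ Fintype.piFinset Bl
    · obtain ⟨N₀, hN₀⟩ := hCK W (Finset.univ.image τ) 𝔮 hKW hW (hS τ hτ)
      exact ⟨N₀, fun _ => hN₀⟩
    · exact ⟨0, fun h => absurd h hτ⟩
  choose N₀ hN₀ using hex
  refine ⟨(Fintype.piFinset Bl).sup N₀, ?_⟩
  intro N hN
  set D := Module.finrank ℚ F with hD
  set A : (Fin k → ℕ) → Set (𝓞 F)[X] := fun τ =>
    {f : (𝓞 F)[X] | f = pl (f.coeff 1) (f.coeff 0) ∧
        (∀ q ∈ Finset.univ.image τ, Gq q (𝔮 q) (f.coeff 1) (f.coeff 0)) ∧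
        BadS N κ (Finset.univ.image τ) 𝔮 f} with hAdef
  have hA : ∀ τ ∈ Fintype.piFinset Bl, (A τ).Finite ∧
      2 ^ (Finset.univ.image τ).card * (∏ q ∈ Finset.univ.image τ, q) ^ (2 * D) * (A τ).ncard ≤
        C * (∏ q ∈ Finset.univ.image τ, (GR q (𝔮 q)).ncard) * 2 ^ (D * (10 * N)) :=
    fun τ hτ => hN₀ τ hτ N ((Finset.le_sup hτ).trans hN)
  set B : Set (𝓞 F)[X] := {f : (𝓞 F)[X] | f = pl (f.coeff 1) (f.coeff 0) ∧
    (∀ i, 9 / 10 * ∑ q ∈ Bl i, dl q (𝔮 q) ≤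
      (((Bl i).filter fun q => Gq q (𝔮 q) (f.coeff 1) (f.coeff 0)).card : ℝ)) ∧
    ∀ τ : Fin k → ℕ, (∀ i, τ i ∈ Bl i) →
      (∀ i, Gq (τ i) (𝔮 (τ i)) (f.coeff 1) (f.coeff 0)) →
      BadS N κ (Finset.univ.image τ) 𝔮 f} with hBdef
  have hsub : ∀ f ∈ B, ∀ τ ∈ Fintype.piFinset Bl,
      (∀ i, Gq (τ i) (𝔮 (τ i)) (f.coeff 1) (f.coeff 0)) → f ∈ A τ := by
    intro f hf τ hτ hg
    refine ⟨hf.1, ?_, hf.2.2 τ (Fintype.mem_piFinset.1 hτ) hg⟩
    intro q hq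
    obtain ⟨i, -, rfl⟩ := Finset.mem_image.1 hq
    exact hg i
  have hBfin : B.Finite := by
    apply Set.Finite.subset (Set.Finite.biUnion (Fintype.piFinset Bl).finite_toSet
      (fun τ hτ => (hA τ hτ).1))
    intro f hf
    have h1 : ∀ i, ∃ q ∈ Bl i, Gq q (𝔮 q) (f.coeff 1) (f.coeff 0) := by
      intro i
      have h2 := hf.2.1 i
      have h3 : 0 < (((Bl i).filter fun q => Gq q (𝔮 q) (f.coeff 1) (f.coeff 0)).card : ℝ) := by
        have := hpos i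
        linarith
      have h4 : 0 < ((Bl i).filter fun q => Gq q (𝔮 q) (f.coeff 1) (f.coeff 0)).card := by
        exact_mod_cast h3
      obtain ⟨q, hq⟩ := Finset.card_pos.1 h4
      rw [Finset.mem_filter] at hq
      exact ⟨q, hq.1, hq.2⟩
    choose τ hτ hg using h1
    have hτ' : τ ∈ Fintype.piFinset Bl := Fintype.mem_piFinset.2 hτ
    rw [Set.mem_iUnion₂]
    exact ⟨τ, hτ', hsub f hf τ hτ' hg⟩
  have hcount := count Bl (fun (f : (𝓞 F)[X]) q => Gq q (𝔮 q) (f.coeff 1) (f.coeff 0))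
    hBfin.toFinset A (fun τ hτ => (hA τ hτ).1)
    (fun f hf τ hτ hg => hsub f (hBfin.mem_toFinset.1 hf) τ hτ hg)
    (fun i => 9 / 10 * ∑ q ∈ Bl i, dl q (𝔮 q))
    (fun i => by have := hpos i; positivity)
    (fun f hf i => (hBfin.mem_toFinset.1 hf).2.1 i)
  rw [← Set.ncard_eq_toFinset_card B hBfin] at hcount
  -- bound for the sets `A τ`
  have hAb : ∀ τ ∈ Fintype.piFinset Bl, ((A τ).ncard : ℝ) ≤
      (C : ℝ) * 2 ^ (D * (10 * N)) * ∏ i, (dl (τ i) (𝔮 (τ i)) / 2) := by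
    intro τ hτ
    have h1 := (hA τ hτ).2
    rw [Finset.card_image_of_injective _ (hinj τ hτ), Finset.card_univ, Fintype.card_fin,
      Finset.prod_image (fun i _ j _ hij => hinj τ hτ hij),
      Finset.prod_image (fun i _ j _ hij => hinj τ hτ hij)] at h1
    have h2 : (2 : ℝ) ^ k * (∏ i, ((τ i : ℕ) : ℝ)) ^ (2 * D) * ((A τ).ncard : ℝ) ≤
        (C : ℝ) * (∏ i, (((GR (τ i) (𝔮 (τ i))).ncard : ℕ) : ℝ)) * 2 ^ (D * (10 * N)) := by
      exact_mod_cast h1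
    have h3 : ∀ i, (0 : ℝ) < ((τ i : ℕ) : ℝ) := by
      intro i
      exact_mod_cast (hPr i _ (Fintype.mem_piFinset.1 hτ i)).pr.pos
    have h4 : (0 : ℝ) < 2 ^ k * (∏ i, ((τ i : ℕ) : ℝ)) ^ (2 * D) := by
      have : (0 : ℝ) < ∏ i, ((τ i : ℕ) : ℝ) := Finset.prod_pos fun i _ => h3 i
      positivity
    have h5 : (∏ i, (dl (τ i) (𝔮 (τ i)) / 2)) =
        (∏ i, (((GR (τ i) (𝔮 (τ i))).ncard : ℕ) : ℝ)) /
          (2 ^ k * (∏ i, ((τ i : ℕ) : ℝ)) ^ (2 * D)) := by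
      rw [Finset.prod_div_distrib, Finset.prod_const, Finset.card_univ, Fintype.card_fin]
      unfold dl
      rw [Finset.prod_div_distrib, Finset.prod_pow, div_div, mul_comm ((2 : ℝ) ^ k)]
    rw [h5, mul_div_assoc', le_div_iff₀ h4]
    linarith
  have hsum : ∑ τ ∈ Fintype.piFinset Bl, ((A τ).ncard : ℝ) ≤
      (C : ℝ) * 2 ^ (D * (10 * N)) * ∏ i, ((∑ q ∈ Bl i, dl q (𝔮 q)) / 2) := by
    refine (Finset.sum_le_sum hAb).trans ?_
    rw [← Finset.mul_sum]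
    apply le_of_eq
    congr 1
    have h7 : (∏ i, ((∑ q ∈ Bl i, dl q (𝔮 q)) / 2)) = ∏ i, ∑ q ∈ Bl i, dl q (𝔮 q) / 2 :=
      Finset.prod_congr rfl fun i _ => Finset.sum_div _ _ _
    rw [h7, Finset.prod_univ_sum]
  have hfin := arith (fun i => ∑ q ∈ Bl i, dl q (𝔮 q)) hpos (B.ncard : ℝ) (C : ℝ)
    (2 ^ (D * (10 * N))) (hcount.trans hsum)
  refine ⟨hBfin, ?_⟩
  exact_mod_cast hfin

end Pool.Agent.H458.AU.DC2
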