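import Pool.Agent.H458.AU.Fin
import Pool.Agent.H458.AU.DC2
import Pool.Agent.H294.AU458.TAIL
import Pool.Agent.H337.AU458.CHEB
import Pool.Agent.H348.AU458.SUM
import Pool.Agent.H350.AU458.FEW
import Pool.Agent.H549.AU458.BDS
import Pool.Agent.H665.AU458.DEG
import Pool.Agent.H747.AU458.GC
import Pool.Agent.H975.AU458.FIB
import Pool.Agent.H980.AU458.IRC
import Pool.Agent.H459.AV.Biso
import Pool.Agent.H650.AU458.AVG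

/-!
# Project AU (helper458): the assembly
-/

set_option autoImplicit false
set_option linter.all false

open Polynomial Matrix IsDedekindDomain NumberField
open scoped Classical

namespace Pool.Agent.H458.AU

open Pool.Agent.N783.PF (Crv)

theorem smlr : S_SMLR :=
  Pool.Agent.H459.UF.smlR Pool.Agent.N75.PF.cu Pool.Agent.N352.PF.bxT Pool.Agent.N189.PF.ld
    Pool.Agent.N195.PF.pr Pool.Agent.N195.PF.pf

theorem tail : S_TAIL :=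
  Pool.Agent.H294.AU458.tail smlr Pool.Agent.N352.PF.bxT
    (Pool.Agent.N352.PF.STR331.str Pool.Agent.N75.PF.cu Pool.Agent.N364.PF.cl Pool.Agent.N195.PF.pf)
    Pool.Agent.N935.PF.WK.wk Pool.Agent.N195.PF.pf

theorem few : S_FEW :=
  Pool.Agent.H350.AU458.few (Pool.Agent.H975.AU458.fib Pool.Agent.N352.PF.bxT)
    Pool.Agent.H337.AU458.cheb

theorem dcT : S_DC := DC2.dc (Pool.Agent.H549.AU458.BDS.bds Pool.Agent.N783.PF.bad)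

theorem cor : S_COR :=
  core tail few dcT (Pool.Agent.H665.AU458.deg Pool.Agent.H348.AU458.SUM.sum)
    (Pool.Agent.H747.AU458.gc Pool.Agent.H980.AU458.irc)

theorem avg : S_AVG := Pool.Agent.H650.AU458.avg Pool.Agent.H307.AV2.iso

/-- **The theorem.** -/
theorem final (F : Type) [Field F] [NumberField F] (W₀ : ℕ)
    (hW₀ : 0 < W₀) (𝒮 : Finset (𝓞 F)) (h𝒮 : ∀ d ∈ 𝒮, d ≠ 0) (ε : ℝ) (hε : 0 < ε) :
    ∃ (R : ℕ) (𝒟 : Finset ℕ), 0 < R ∧ W₀ ∣ R ∧ 1 ∈ 𝒟 ∧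
    (∀ D ∈ 𝒟, Squarefree D ∧ D % (8 * W₀) = 1 % (8 * W₀) ∧ D ∣ R) ∧
    ∃ Y₀ : ℝ, ∀ Y ≥ Y₀, 0 < {p : 𝓞 F × 𝓞 F | Crv Y p}.ncard ∧
    (({p : 𝓞 F × 𝓞 F | Crv Y p ∧ ∃ d ∈ 𝒮, ¬ Tw R 𝒟 (twp p d)}.ncard : ℝ)) ≤
      ε * ({p : 𝓞 F × 𝓞 F | Crv Y p}.ncard : ℝ) ∧
    ∀ T : Finset (𝓞 F × 𝓞 F), (∀ p ∈ T, Crv Y p) → ∀ d ∈ 𝒮,
      ∑ p ∈ T, (mr 𝒟 (twp p d) : ℝ) ≤ ε * ({p : 𝓞 F × 𝓞 F | Crv Y p}.ncard : ℝ) :=
  main cor avg F W₀ hW₀ 𝒮 h𝒮 ε hε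

end Pool.Agent.H458.AU
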