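import Pool.Agent.H459.AV.All

/-!
# Project AU (helper458): the average of `2 ^ rank` of the twists by `d`
-/

set_option autoImplicit false
set_option linter.all false

open Polynomial Matrix IsDedekindDomain NumberField
open scoped Classical

namespace Pool.Agent.H458.AU

open Pool.Agent.N783.PF (Crv)
open Pool.Agent.H459.AV (rk S_ISO)

/-- **S_AVG** (the average of `2 ^ rank` over the twists by `d` of all the elliptic curves over `F`; assume `S_ISO`).

Proof. As `Pool.Agent.H459.AV.all` (`H459/AV/All.lean`, `Fin.lean`, `Avg.lean`, `Cnt.lean`), which is the case `d = 1`.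
Let `δ ≥ 1` be a natural number with `‖σ d‖ ≤ δ` for all `σ`, `p = (a, b)` with `Crv Y p`, `27 B ^ 6 ≤ Y < 27 (B + 1) ^ 6`
(`exists_B`), `p' = (a d ^ 2, b d ^ 3)`. If `x ^ 3 + a x + b` is irreducible, then so is that of `p'` (the zeros are
multiplied by `d`), and `Ht 1 (6 δ (B + 1)) (sc p'.1 p'.2)`; `2 ^ rk p' ≤ #Sel_2` (`rank_le`), the map `p ↦ p'` is
injective, and `Pool.Agent.H459.AV.total` for the image of `T` bounds the sum of the `#Sel_2` by
`#T + C (6 δ (B + 1)) ^ (5 D)`. The curves with reducible `x ^ 3 + a x + b`: at most `C₂ B ^ (3 D)` of them (`red_le`), and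
`2 ^ rk p' ≤ C₃ (δ (B + 1)) ^ D` by `rk_red` (`R = δ (B + 1)`), which does not need that `p'` is minimal. And
`c B ^ (5 D) ≤ N(Y)` by `crv_lower`. -/
def S_AVG : Prop := ∀ (F : Type) [Field F] [NumberField F] (d : 𝓞 F), d ≠ 0 → ∃ C : ℝ, 0 < C ∧
  ∃ Y₀ : ℝ, ∀ Y ≥ Y₀, ∀ T : Finset (𝓞 F × 𝓞 F), (∀ p ∈ T, Crv Y p) →
  ∑ p ∈ T, (2 : ℝ) ^ rk (p.1 * d ^ 2, p.2 * d ^ 3) ≤ C * ({p : 𝓞 F × 𝓞 F | Crv Y p}.ncard : ℝ)

end Pool.Agent.H458.AU
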