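import Pool.Graph.R_pool_sql_team_seeded_63374d34.N951.PF.Fam

/-!
# Project AU (helper458): every elliptic curve, up to a proportion `ε`, has a twist of rank zero
# in a finite set of twists; definitions and statements of the parts

`F` is any number field, `D = [F : ℚ]`. `Ht`, `GoodS`, `LBad`, `Cg`, `sp`, `rd`, `Weak`, `dsc` are in `N783/PF/Def.lean` of the library, `Bx`, `Bz`, `nv`, `dg`
in `N352/PF/Cnt.lean`. `S_BAD` (proved: `Pool.Agent.N783.PF.bad`) bounds the number of the bad polynomials.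
(`N783`, `N352`, `N951`: directories of `Pool/Graph/R_pool_sql_team_seeded_63374d34/`.)
-/

set_option autoImplicit false
set_option linter.all false

open Polynomial Matrix IsDedekindDomain NumberField
open scoped Classical

namespace Pool.Agent.H458.AU

open Pool.Agent.N783.PF (Bd Cg sp rd Ht GoodS LBad Weak dsc fF)
open Pool.Agent.N783.PF (S_BAD)
open Pool.Agent.N352.PF (nv dg Bx Bz S_BX S_STR S_WK S_PF)
open Pool.Agent.N352.PJ (dis D2 dd)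

section

variable {F : Type} [Field F] [NumberField F]

/-- The cubic polynomial. -/
noncomputable def pl (a b : 𝓞 F) : (𝓞 F)[X] := X ^ 3 + C a * X + C b

/-- The curve `y ^ 2 = x ^ 3 + a x + b` is good at `q`: modulo the prime `𝔮` over `q` the cubic
polynomial is `X (X ^ 2 + a)` with `X ^ 2 + a` irreducible, and it is irreducible modulo the other
primes over `q`. -/
def Gq (q : ℕ) (𝔮 : Ideal (𝓞 F)) (a b : 𝓞 F) : Prop :=
  b ∈ 𝔮 ∧ Irreducible (rd 𝔮 (X ^ 2 + C a)) ∧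
  ∀ 𝔭 : Ideal (𝓞 F), 𝔭.IsPrime → (q : 𝓞 F) ∈ 𝔭 → 𝔭 ≠ 𝔮 → Irreducible (rd 𝔭 (pl a b))

/-- The twisting primes. -/
structure PrQ (W q : ℕ) (𝔮 : Ideal (𝓞 F)) : Prop where
  pr : q.Prime
  big : W < q
  mod : q % (8 * W) = 1 % (8 * W)
  unr : ∀ 𝔭 : Ideal (𝓞 F), 𝔭.IsPrime → (q : 𝓞 F) ∉ 𝔭 ^ 2
  qp : 𝔮.IsPrime
  mem : (q : 𝓞 F) ∈ 𝔮

/-- The residues of a pair modulo `q`. -/
noncomputable def mk2 (q : ℕ) (a b : 𝓞 F) : (𝓞 F ⧸ sp F q) × (𝓞 F ⧸ sp F q) :=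
  (Ideal.Quotient.mk (sp F q) a, Ideal.Quotient.mk (sp F q) b)

/-- The good residues modulo `q`. -/
def GR (q : ℕ) (𝔮 : Ideal (𝓞 F)) : Set ((𝓞 F ⧸ sp F q) × (𝓞 F ⧸ sp F q)) :=
  {r | ∃ a b : 𝓞 F, Gq q 𝔮 a b ∧ r = mk2 q a b}

/-- The proportion of the good residues modulo `q`. -/
noncomputable def dl (q : ℕ) (𝔮 : Ideal (𝓞 F)) : ℝ :=
  ((GR q 𝔮).ncard : ℝ) / (q : ℝ) ^ (2 * Module.finrank ℚ F)

theorem mk2_eq {q : ℕ} {a b a' b' : 𝓞 F} : mk2 q a b = mk2 q a' b' ↔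
    a - a' ∈ sp F q ∧ b - b' ∈ sp F q := by
  unfold mk2
  rw [Prod.mk.injEq, Ideal.Quotient.eq, Ideal.Quotient.eq]

theorem Gq.congr {q : ℕ} {𝔮 : Ideal (𝓞 F)} (hq : (q : 𝓞 F) ∈ 𝔮) {a b a' b' : 𝓞 F}
    (h : mk2 q a b = mk2 q a' b') (hg : Gq q 𝔮 a b) : Gq q 𝔮 a' b' := by
  rw [mk2_eq] at h
  have hle : ∀ 𝔭 : Ideal (𝓞 F), (q : 𝓞 F) ∈ 𝔭 → sp F q ≤ 𝔭 := fun 𝔭 hp => by
    rwa [sp, Ideal.span_singleton_le_iff_mem]
  obtain ⟨h1, h2, h3⟩ := hg
  have e : ∀ (𝔭 : Ideal (𝓞 F)), (q : 𝓞 F) ∈ 𝔭 → Ideal.Quotient.mk 𝔭 a = Ideal.Quotient.mk 𝔭 a' ∧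
      Ideal.Quotient.mk 𝔭 b = Ideal.Quotient.mk 𝔭 b' := fun 𝔭 hp =>
    ⟨Ideal.Quotient.eq.2 (hle 𝔭 hp h.1), Ideal.Quotient.eq.2 (hle 𝔭 hp h.2)⟩
  refine ⟨?_, ?_, fun 𝔭 h4 h5 h6 => ?_⟩
  · have h4 := Ideal.sub_mem _ h1 (hle 𝔮 hq h.2)
    rwa [sub_sub_cancel] at h4
  · have h4 : rd 𝔮 (X ^ 2 + C a') = rd 𝔮 (X ^ 2 + C a) := by
      unfold rd
      rw [Polynomial.map_add, Polynomial.map_add, map_C, map_C, (e 𝔮 hq).1]
    rw [h4]
    exact h2
  · have h7 : rd 𝔭 (pl a' b') = rd 𝔭 (pl a b) := by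
      unfold rd pl
      simp only [Polynomial.map_add, Polynomial.map_mul, map_C]
      rw [(e 𝔭 h5).1, (e 𝔭 h5).2]
    rw [h7]
    exact h3 𝔭 h4 h5 h6

theorem mem_GR {q : ℕ} {𝔮 : Ideal (𝓞 F)} (hq : (q : 𝓞 F) ∈ 𝔮) {a b : 𝓞 F} :
    mk2 q a b ∈ GR q 𝔮 ↔ Gq q 𝔮 a b := by
  constructor
  · rintro ⟨a', b', h1, h2⟩
    exact h1.congr hq h2.symm
  · intro h
    exact ⟨a, b, h, rfl⟩

theorem PrQ.mod8 {W q : ℕ} {𝔮 : Ideal (𝓞 F)} (h : PrQ W q 𝔮) (hW : 0 < W) : q % 8 = 1 ∧ 3 < q := by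
  have h1 : q % 8 = 1 := by
    have h2 : (q % (8 * W)) % 8 = (1 % (8 * W)) % 8 := by rw [h.mod]
    rw [Nat.mod_mul_right_mod, Nat.mod_mul_right_mod] at h2
    omega
  have h3 := h.pr.two_le
  exact ⟨h1, by omega⟩

end

/-! ### The primes -/

/-- **S_SUM** (divergence of the sum of the `1 / N(v)` over the primes of a number field).

Proof. Suppose that the sum over all `v` with `N(v) > X₀` is bounded by `M`; then, since there are finitely many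
primes of norm at most `X₀` and by `1 / (1 - 1 / N) ≤ exp (2 / N)`, all finite products `∏ (1 - 1 / N(v))⁻¹` are
bounded by a constant. But for every `X` the finite product over the `v` with `N(v) ≤ X` is at least
`∑_{N(I) ≤ X} 1 / N(I)`, the sum over the non-zero ideals (unique factorization: every `I` of norm at most `X` is
`∏ v ^ {k_v}` with `k_v ≤ log₂ X`, and `∏_v (1 - 1 / N(v))⁻¹ ≥ ∏_v ∑_{k ≤ K} N(v)^{-k} = ∑_{(k_v)} 1 / N(∏ v ^ {k_v})`),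
and this sum is unbounded: the number of ideals of norm at most `s` is at least `c s` (Mathlib:
`NumberField.Ideal.tendsto_norm_le_div_atTop`, positive limit), so that already the sum over the ideals with
`s / K < N(I) ≤ s` is bounded below by a positive constant; or simpler: if `∑ 1 / N(I)` were bounded, i.e. summable,
its tails `∑_{s₀ < N(I) ≤ s} 1 / N(I) ≥ (#{N(I) ≤ s} - #{N(I) ≤ s₀}) / s → residue > 0` could not be small. -/
def S_SUM : Prop := ∀ (E : Type) [Field E] [NumberField E] (X₀ : ℕ) (M : ℝ),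
  ∃ T : Finset (HeightOneSpectrum (𝓞 E)), (∀ v ∈ T, X₀ < nv v) ∧ M ≤ ∑ v ∈ T, 1 / (nv v : ℝ)

/-- **S_DEG** (rational primes `q`, one modulo `8 W`, with a prime of degree one of `F` over `q`; assume `S_SUM`).

Proof. Let `E` be a number field which contains `F` and a primitive `8 W`-th root of unity `ζ` (for instance
Mathlib's `CyclotomicField (8 * W) F`). Use `S_SUM` for `E`. The primes `v` of `E` whose norm is not a prime number
have `N(v) = q ^ f`, `f ≥ 2`, at most `[E : ℚ]` over each `q`, so they contribute at most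
`[E : ℚ] ∑ 1 / q ^ 2 ≤ 2 [E : ℚ]` to the sum (library: `S_PR` bounds the sums of `1 / N(v) ^ 2`; the number of primes
over `q` is at most `[E : ℚ]`: `Pool.Agent.N352.PF` and Mathlib's `Ideal.sum_ramification_inertia`). For a prime `v` with
`N(v) = q` prime, `q` large: the prime `𝔮 = v ∩ 𝓞 F` has norm `q` (its residue field is `F_q`), `q` is not in the square
of a prime of `F` (finitely many ramified `q`: they divide the discriminant; library: `Pool.Agent.N710.PF` Exs.lean,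
`H459/UD/ExsD.lean`), and `ζ` modulo `v` has the exact order `8 W` in `F_qˣ` (because `q` does not divide `8 W`; the
cyclotomic polynomial is separable modulo `q`), so `8 W ∣ q - 1`. Every `q` occurs for at most `[E : ℚ]` primes `v`. -/
def S_DEG : Prop := ∀ (F : Type) [Field F] [NumberField F] (W X₀ : ℕ) (M : ℝ), 0 < W →
  ∃ (B : Finset ℕ) (𝔮 : ℕ → Ideal (𝓞 F)),
    (∀ q ∈ B, X₀ < q ∧ PrQ W q (𝔮 q) ∧ Ideal.absNorm (𝔮 q) = q) ∧ M ≤ ∑ q ∈ B, 1 / (q : ℝ)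

/-- **S_IRC** (irreducible cubic polynomials over a finite field).

Proof. Let `k'` be an extension of `k` of degree three (`GaloisField`, `FiniteField.Extension` or `AdjoinRoot` of an
irreducible polynomial of degree three), `n = #k`. The trace `k' → k` is surjective and `k`-linear, so `n ^ 2`
elements have trace zero; an element of `k` of trace zero is `0` (`3 ≠ 0`). So there are `n ^ 2 - 1` elements of trace
zero of degree three, their minimal polynomials are `X ^ 3 + a X + b` and irreducible, and every such polynomial has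
at most three zeros: at least `(n ^ 2 - 1) / 3 ≥ n ^ 2 / 4` pairs `(a, b)`. -/
def S_IRC : Prop := ∀ (k : Type) [Field k] [Finite k], (3 : k) ≠ 0 →
  Nat.card k ^ 2 ≤ 4 * {p : k × k | Irreducible (X ^ 3 + C p.1 * X + C p.2 : k[X])}.ncard

/-- **S_GC** (a lower bound for the number of good residues; assume `S_IRC`).

Proof. `𝓞 F ⧸ (q) ≃ ∏ 𝓞 F ⧸ 𝔭` over the primes over `q` (Chinese remainder theorem, `q` is unramified: `(q)` is the
product of the different primes over `q`), the number of elements is `q ^ D` (`Ideal.absNorm`). The good residues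
`(a, b)` correspond to: `b = 0` and `- a` not a square in `𝓞 F ⧸ 𝔮` (a field with `q` elements: `(q - 1) / 2 ≥ q / 4`
values of `a`; `X ^ 2 + a` is irreducible iff it has no zero), and `(a, b)` with `X ^ 3 + a X + b` irreducible over
`𝓞 F ⧸ 𝔭` for the other `𝔭`: at least `N(𝔭) ^ 2 / 4` by `S_IRC`. There are at most `D` primes over `q`. So one can
take `c = 1 / 4 ^ (D + 1)`: `GR q 𝔮` has at least `(q / 4) ∏_{𝔭 ≠ 𝔮} N(𝔭) ^ 2 / 4` elements and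
`q ^ (2 D) = q ^ 2 ∏_{𝔭 ≠ 𝔮} N(𝔭) ^ 2`. -/
def S_GC : Prop := ∀ (F : Type) [Field F] [NumberField F], ∃ c : ℝ, 0 < c ∧
  ∀ (W q : ℕ) (𝔮 : Ideal (𝓞 F)), 0 < W → PrQ W q 𝔮 → Ideal.absNorm 𝔮 = q → c / q ≤ dl q 𝔮

/-! ### Counting -/

/-- The statement of `Pool.Agent.H459.UF.smlR` (`H459/UF/FamS.lean`, proved there). -/
def S_SMLR : Prop := ∀ (F : Type) [Field F] [NumberField F] (g R : ℕ), 1 ≤ g → 1 ≤ R →
  ∃ M C : ℕ, 1 ≤ C ∧ ∀ (B W : ℕ) (A : Fin (2 * g) → 𝓞 F), 0 < W → C * W ≤ B →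
    R * {a ∈ Bx g B W A | ∃ v : HeightOneSpectrum (𝓞 F), M < nv v ∧ nv v ^ 2 < B ^ dg F ∧
      (W : 𝓞 F) ∉ v.asIdeal ∧ dis a ∈ v.asIdeal ^ 2}.ncard ≤ (Bx g B W A).ncard

/-- **S_TAIL** (the discriminants divisible by the square of a prime which is not small; assume `S_SMLR`, `S_BX`,
`S_STR`, `S_WK`, `S_PF`).

Proof. As in `H459/UT/Fam.lean`, theorem `famT` (helper459; on origin/main), with `W = 1`, `A = 0`, `g = 1`: by
`S_SMLR` with `R` large (and the upper bound of `S_BX` for all) the polynomials for which there is `v` with `M < nv v`,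
`nv v ^ 2 < B ^ D` and `dsc ∈ v ^ 2` are at most `1 / R` of all; by `S_STR` (with `ε` small) the polynomials with a `v`
with `B ^ D ≤ nv v ^ 2`, `dsc ∈ v`, `D2 ∈ v` are few; and by `S_WK` in the other cases `f` is weakly divisible
(`M` is so large that `3!` is not in `v`: `nv v ≤ 6 ^ D` if `6 ∈ v`, by `S_PF`). `Bz`, `pol`, `dis` of the library versus
`Ht`, `dsc`: see the proof of `famT` (`ht_pol`, `bz_coeff`, `eq_pol`, `pol_inj` of `N951/PF/Fam.lean`). -/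
def S_TAIL : Prop := ∀ (F : Type) [Field F] [NumberField F] (ε : ℝ), 0 < ε → ∃ M B₀ : ℕ, ∀ B ≥ B₀,
  {f : (𝓞 F)[X] | Ht 1 B f}.Finite ∧
  (({f : (𝓞 F)[X] | Ht 1 B f ∧ ∃ v : HeightOneSpectrum (𝓞 F), M < nv v ∧
    dsc 1 f ∈ v.asIdeal ^ 2 ∧ ¬ (B ^ Module.finrank ℚ F ≤ Ideal.absNorm v.asIdeal ^ 2 ∧
      Weak v.asIdeal f)}.ncard : ℝ)) ≤ ε * (B : ℝ) ^ (5 * Module.finrank ℚ F)

/-- **S_FIB** (polynomials in a box with given residues; assume `S_BX`).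

Proof. Upper bound of `S_BX` of the library (`N352/PF/Cnt.lean`; the proof is used in `H459/UT/Fam.lean`) for
`W = ∏ q`, with the residues from the Chinese remainder theorem (`Pool.Agent.N951.PF.crt`). -/
def S_FIB : Prop := ∀ (F : Type) [Field F] [NumberField F], ∃ C : ℕ, 1 ≤ C ∧
  ∀ (S : Finset ℕ) (a₀ b₀ : ℕ → 𝓞 F) (B : ℕ), (∀ q ∈ S, q.Prime) → C * ∏ q ∈ S, q ≤ B →
  {f : (𝓞 F)[X] | Ht 1 B f ∧ ∀ q ∈ S,
    mk2 q (f.coeff 1) (f.coeff 0) = mk2 q (a₀ q) (b₀ q)}.ncard *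
    (∏ q ∈ S, q) ^ (2 * Module.finrank ℚ F) ≤ C * B ^ (5 * Module.finrank ℚ F)

/-- **S_CHEB** (Chebyshev's inequality for products of finite probability spaces).

Proof. Let `p i = #(G i) / #(R i)`, `M = ∑ p i` and `X(ρ) = #{i | ρ i ∈ G i} = ∑ 1_{G i}(ρ i)`. By independence (expand
the square; the average over `ρ` of `(1_{G i}(ρ i) - p i) (1_{G j}(ρ j) - p j)` is `0` for `i ≠ j` and `p i (1 - p i)` for
`i = j`) `∑_ρ (X(ρ) - M) ^ 2 = ∏ #(R i) * ∑ p i (1 - p i) ≤ M ∏ #(R i)`, and `(X(ρ) - M) ^ 2 ≥ (M / 10) ^ 2` if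
`X(ρ) < 9 / 10 * M`. -/
def S_CHEB : Prop := ∀ (ι : Type) [Fintype ι] (R : ι → Type) [∀ i, Fintype (R i)] [∀ i, Nonempty (R i)]
  (G : ∀ i, Finset (R i)) (M : ℝ), M = ∑ i, ((G i).card : ℝ) / Fintype.card (R i) → 0 < M →
  (((Finset.univ : Finset (∀ i, R i)).filter fun ρ =>
    (((Finset.univ : Finset ι).filter fun i => ρ i ∈ G i).card : ℝ) < 9 / 10 * M).card : ℝ) * M ≤
    100 * Fintype.card (∀ i, R i)

/-- **S_FEW** (few polynomials are good at few primes; assume `S_FIB` and `S_CHEB`).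

Proof. The map `f ↦ (mk2 q (f.coeff 1) (f.coeff 0))_{q ∈ T}` to the product of the finite sets
`(𝓞 F ⧸ (q)) × (𝓞 F ⧸ (q))` of `q ^ (2 D)` elements has by `S_FIB` at most `C B ^ (5 D) / ∏ q ^ (2 D)` elements in each
fibre, `Gq` depends on the image only (`mem_GR`), and by `S_CHEB` at most `100 / M * ∏ q ^ (2 D)` elements of the product
are good at less than `9 / 10 * M` places. Take `M₁ = 100 C / ε`. -/
def S_FEW : Prop := ∀ (F : Type) [Field F] [NumberField F] (ε : ℝ), 0 < ε → ∃ M₁ : ℝ, 0 < M₁ ∧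
  ∀ (W : ℕ) (T : Finset ℕ) (𝔮 : ℕ → Ideal (𝓞 F)), (∀ q ∈ T, PrQ W q (𝔮 q)) →
  M₁ ≤ ∑ q ∈ T, dl q (𝔮 q) → ∃ B₀ : ℕ, ∀ B ≥ B₀,
  (({f : (𝓞 F)[X] | Ht 1 B f ∧ ((T.filter fun q => Gq q (𝔮 q) (f.coeff 1) (f.coeff 0)).card : ℝ) <
    9 / 10 * ∑ q ∈ T, dl q (𝔮 q)}.ncard : ℝ)) ≤ ε * (B : ℝ) ^ (5 * Module.finrank ℚ F)

/-- The polynomials which are bad with respect to their own residues at `S`. -/
def BadS {F : Type} [Field F] [NumberField F] (N κ : ℕ) (S : Finset ℕ) (𝔮 : ℕ → Ideal (𝓞 F))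
    (f : (𝓞 F)[X]) : Prop :=
  LBad 1 N κ S 𝔮 (fun _ => f) f

/-- **S_BDS** (the number of the bad polynomials which are good at all primes in `S`).

Proof (assume `S_BAD`). `S_BAD` with `g = 1` (`dd 1 = 5`). For every choice `ρ` of a good residue `ρ q ∈ GR q (𝔮 q)`
for all `q ∈ S` (`Fintype.piFinset` or functions on `S`; `GR` is finite) choose `a q`, `b q` with `Gq q (𝔮 q) (a q) (b q)` and
`ρ q = mk2 q (a q) (b q)`, and put `h q = X ^ 2 + C (a q)`, `P q = pl (a q) (b q)`. Then `GoodS 1 W S 𝔮 h P` holds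
(`PrQ.mod8`), and for `f = pl (f.coeff 1) (f.coeff 0)` with these residues `BadS N κ S 𝔮 f` implies
`LBad 1 N κ S 𝔮 P f` (only `rd 𝔭 (P q) = rd 𝔭 f` for the primes `𝔭` over `q` is used in `Xset`). So the set is contained in
the union over the `ρ` of the sets of `S_BAD`; `N₀` is the maximum over the finitely many `ρ`. -/
def S_BDS : Prop := ∀ (F : Type) [Field F] [NumberField F] (κ : ℕ), ∃ C K : ℕ,
  ∀ (W : ℕ) (S : Finset ℕ) (𝔮 : ℕ → Ideal (𝓞 F)), K ≤ W → 0 < W → (∀ q ∈ S, PrQ W q (𝔮 q)) →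
  ∃ N₀ : ℕ, ∀ N ≥ N₀,
  {f : (𝓞 F)[X] | f = pl (f.coeff 1) (f.coeff 0) ∧
    (∀ q ∈ S, Gq q (𝔮 q) (f.coeff 1) (f.coeff 0)) ∧ BadS N κ S 𝔮 f}.Finite ∧
  2 ^ S.card * (∏ q ∈ S, q) ^ (2 * Module.finrank ℚ F) *
    {f : (𝓞 F)[X] | f = pl (f.coeff 1) (f.coeff 0) ∧
      (∀ q ∈ S, Gq q (𝔮 q) (f.coeff 1) (f.coeff 0)) ∧ BadS N κ S 𝔮 f}.ncard ≤
    C * (∏ q ∈ S, (GR q (𝔮 q)).ncard) * 2 ^ (Module.finrank ℚ F * (10 * N))

/-- **S_DC** (double counting; assume `S_BDS`). `Bl 0, ..., Bl (k - 1)` are disjoint sets of primes; few polynomials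
with many good primes in every block are bad for all the transversals of good primes.

Proof. Let `𝓑` be the set and let `m i = #{q ∈ Bl i | f good at q} ≥ 9 / 10 * M i`, `M i = ∑_{q ∈ Bl i} dl q`. Every
`f ∈ 𝓑` is, for each of the `∏ m i` transversals `τ` of its good primes, in the set of `S_BDS` for
`S = {τ 0, ..., τ (k - 1)}` (`k` elements, the blocks are disjoint). So
`∏ (9 / 10 * M i) * #𝓑 ≤ ∑_τ C ∏_i (dl (τ i) / 2) 2 ^ (10 N D) = C ∏_i (M i / 2) 2 ^ (10 N D)`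
(`Finset.prod_univ_sum`), sum over all `τ ∈ Fintype.piFinset Bl`. Divide by `∏ M i > 0` and multiply by `10 ^ k`. -/
def S_DC : Prop := ∀ (F : Type) [Field F] [NumberField F] (κ : ℕ), ∃ C K : ℕ,
  ∀ (W k : ℕ) (Bl : Fin k → Finset ℕ) (𝔮 : ℕ → Ideal (𝓞 F)), K ≤ W → 0 < W →
  (∀ i, ∀ q ∈ Bl i, PrQ W q (𝔮 q)) → (∀ i j, i ≠ j → Disjoint (Bl i) (Bl j)) →
  (∀ i, 0 < ∑ q ∈ Bl i, dl q (𝔮 q)) →
  ∃ N₀ : ℕ, ∀ N ≥ N₀,
  {f : (𝓞 F)[X] | f = pl (f.coeff 1) (f.coeff 0) ∧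
    (∀ i, 9 / 10 * ∑ q ∈ Bl i, dl q (𝔮 q) ≤
      (((Bl i).filter fun q => Gq q (𝔮 q) (f.coeff 1) (f.coeff 0)).card : ℝ)) ∧
    ∀ τ : Fin k → ℕ, (∀ i, τ i ∈ Bl i) →
      (∀ i, Gq (τ i) (𝔮 (τ i)) (f.coeff 1) (f.coeff 0)) →
      BadS N κ (Finset.univ.image τ) 𝔮 f}.Finite ∧
  9 ^ k * {f : (𝓞 F)[X] | f = pl (f.coeff 1) (f.coeff 0) ∧
    (∀ i, 9 / 10 * ∑ q ∈ Bl i, dl q (𝔮 q) ≤
      (((Bl i).filter fun q => Gq q (𝔮 q) (f.coeff 1) (f.coeff 0)).card : ℝ)) ∧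
    ∀ τ : Fin k → ℕ, (∀ i, τ i ∈ Bl i) →
      (∀ i, Gq (τ i) (𝔮 (τ i)) (f.coeff 1) (f.coeff 0)) →
      BadS N κ (Finset.univ.image τ) 𝔮 f}.ncard ≤
    5 ^ k * (C * 2 ^ (Module.finrank ℚ F * (10 * N)))

end Pool.Agent.H458.AU
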