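import Pool.Agent.H458.AU.Core
import Pool.Agent.H458.AU.Avg

/-!
# Project AU (helper458): the theorem for the curves ordered by height
-/

set_option autoImplicit false
set_option linter.all false

open Polynomial Matrix IsDedekindDomain NumberField
open scoped Classical

namespace Pool.Agent.H458.AU

open Pool.Agent.H459.UF (Unr Deg1 fo GoodM cu cu_monic cu_deg)
open Pool.Agent.H459.AV (rk NoTwo noTwo_iff sc fF_sc crv_lower red_le le_of_pow3 S_ISO)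
open Pool.Agent.N783.PF (Bd Cg sp rd Ht GoodS LBad Weak dsc fF Dp SelZero Crv)
open Pool.Agent.N61.PF (pol pol_monic pol_natDegree pol_coeff0 pol_coeff1 pol_coeff2 eq_pol
  crv_finite exists_B ht_pol)
open Pool.Agent.N874.PP (sW)
open Pool.Agent.TH115.GD (Pt)

section

variable {F : Type} [Field F] [NumberField F]

theorem twp_twp (p : 𝓞 F × 𝓞 F) (d e : 𝓞 F) : twp (twp p d) e = twp p (d * e) := by
  unfold twp
  simp only [Prod.mk.injEq]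
  constructor <;> ring

theorem twp_one (p : 𝓞 F × 𝓞 F) : twp p 1 = p := by
  unfold twp
  simp

theorem twp_inj {d : 𝓞 F} (hd : d ≠ 0) {p p' : 𝓞 F × 𝓞 F} (h : twp p d = twp p' d) : p = p' := by
  unfold twp at h
  rw [Prod.mk.injEq] at h
  exact Prod.ext (mul_right_cancel₀ (pow_ne_zero 2 hd) h.1)
    (mul_right_cancel₀ (pow_ne_zero 3 hd) h.2)

theorem noTwo_twp {p : 𝓞 F × 𝓞 F} {d : 𝓞 F} (hd : d ≠ 0) (h : NoTwo p) : NoTwo (twp p d) := by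
  intro x hx
  have hd' : (d : F) ≠ 0 := fun h0 => hd (RingOfIntegers.coe_injective (h0.trans (map_zero _).symm))
  apply h (x / d)
  unfold twp at hx
  simp only at hx
  have e1 : ((p.1 * d ^ 2 : 𝓞 F) : F) = (p.1 : F) * (d : F) ^ 2 := by push_cast; rfl
  have e2 : ((p.2 * d ^ 3 : 𝓞 F) : F) = (p.2 : F) * (d : F) ^ 3 := by push_cast; rfl
  rw [e1, e2] at hx
  field_simp
  linear_combination hx

theorem irr_twp {p : 𝓞 F × 𝓞 F} {d : 𝓞 F} (hd : d ≠ 0)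
    (h : Irreducible (cu (p.1 : F) (p.2 : F))) :
    Irreducible (cu ((twp p d).1 : F) ((twp p d).2 : F)) :=
  (noTwo_iff _).1 (noTwo_twp hd ((noTwo_iff p).2 h))

theorem irr_sc {p : 𝓞 F × 𝓞 F} (h : Irreducible (cu (p.1 : F) (p.2 : F))) :
    Irreducible (fF (sc p.1 p.2)) := by
  have h4 : (4 : 𝓞 F) ≠ 0 := by norm_num
  have h1 := irr_twp h4 h
  rw [fF_sc]
  have e1 : ((twp p 4).1 : F) = 16 * (p.1 : F) := by
    unfold twp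
    change algebraMap (𝓞 F) F (p.1 * 4 ^ 2) = 16 * algebraMap (𝓞 F) F p.1
    rw [map_mul, map_pow, map_ofNat]
    ring
  have e2 : ((twp p 4).2 : F) = 64 * (p.2 : F) := by
    unfold twp
    change algebraMap (𝓞 F) F (p.2 * 4 ^ 3) = 64 * algebraMap (𝓞 F) F p.2
    rw [map_mul, map_pow, map_ofNat]
    ring
  rwa [e1, e2] at h1

/-- The box of the scaled polynomials. -/
theorem ht_scd {Y : ℝ} {B δ : ℕ} (hY : Y < 27 * ((B : ℝ) + 1) ^ 6) {p : 𝓞 F × 𝓞 F} (hp : Crv Y p)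
    {d : 𝓞 F} (hd : ∀ σ : F →+* ℂ, ‖σ (d : F)‖ ≤ δ) :
    Ht 1 (6 * (B + 1) * δ) (sc (twp p d).1 (twp p d).2) := by
  have hB0 : (0 : ℝ) ≤ (B : ℝ) + 1 := by positivity
  have hδ : (0 : ℝ) ≤ δ := Nat.cast_nonneg _
  unfold sc
  refine ht_pol ?_ ?_
  · intro σ
    have h3 := (hp.ht σ).1
    have h4 : ‖σ (p.1 : F)‖ ≤ 2 * ((B : ℝ) + 1) ^ 2 := by
      refine le_of_pow3 (by positivity) ?_ (norm_nonneg _)
      have h5 : (2 * ((B : ℝ) + 1) ^ 2) ^ 3 = 8 * ((B : ℝ) + 1) ^ 6 := by ring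
      rw [h5]
      have h6 : 0 ≤ ((B : ℝ) + 1) ^ 6 := by positivity
      linarith
    have e1 : (((16 * (twp p d).1 : 𝓞 F)) : F) = 16 * ((p.1 : F) * (d : F) ^ 2) := by
      unfold twp
      change algebraMap (𝓞 F) F (16 * (p.1 * d ^ 2)) = 16 * (algebraMap (𝓞 F) F p.1 *
        algebraMap (𝓞 F) F d ^ 2)
      rw [map_mul (algebraMap (𝓞 F) F), map_ofNat, map_mul, map_pow]
    rw [e1, map_mul, norm_mul, map_ofNat, map_mul, map_pow, norm_mul, norm_pow]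
    have e2 : ‖(16 : ℂ)‖ = 16 := by norm_num
    rw [e2]
    push_cast
    have h7 : ‖σ (d : F)‖ ^ 2 ≤ (δ : ℝ) ^ 2 := pow_le_pow_left₀ (norm_nonneg _) (hd σ) 2
    have h8 : ‖σ (p.1 : F)‖ * ‖σ (d : F)‖ ^ 2 ≤ 2 * ((B : ℝ) + 1) ^ 2 * (δ : ℝ) ^ 2 :=
      mul_le_mul h4 h7 (by positivity) (by positivity)
    calc 16 * (‖σ (p.1 : F)‖ * ‖σ (d : F)‖ ^ 2) ≤ 16 * (2 * ((B : ℝ) + 1) ^ 2 * (δ : ℝ) ^ 2) := by
          linarith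
      _ ≤ (6 * ((B : ℝ) + 1) * δ) ^ 2 := by
        have h6 : 0 ≤ ((B : ℝ) + 1) ^ 2 * (δ : ℝ) ^ 2 := by positivity
        nlinarith
  · intro σ
    have h3 := (hp.ht σ).2
    have h4 : ‖σ (p.2 : F)‖ ≤ ((B : ℝ) + 1) ^ 3 := by
      refine le_of_pow_le_pow_left₀ two_ne_zero (by positivity) ?_
      have h5 : (((B : ℝ) + 1) ^ 3) ^ 2 = ((B : ℝ) + 1) ^ 6 := by ring
      rw [h5]
      linarith
    have e1 : (((64 * (twp p d).2 : 𝓞 F)) : F) = 64 * ((p.2 : F) * (d : F) ^ 3) := by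
      unfold twp
      change algebraMap (𝓞 F) F (64 * (p.2 * d ^ 3)) = 64 * (algebraMap (𝓞 F) F p.2 *
        algebraMap (𝓞 F) F d ^ 3)
      rw [map_mul (algebraMap (𝓞 F) F), map_ofNat, map_mul, map_pow]
    rw [e1, map_mul, norm_mul, map_ofNat, map_mul, map_pow, norm_mul, norm_pow]
    have e2 : ‖(64 : ℂ)‖ = 64 := by norm_num
    rw [e2]
    push_cast
    have h7 : ‖σ (d : F)‖ ^ 3 ≤ (δ : ℝ) ^ 3 := pow_le_pow_left₀ (norm_nonneg _) (hd σ) 3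
    have h8 : ‖σ (p.2 : F)‖ * ‖σ (d : F)‖ ^ 3 ≤ ((B : ℝ) + 1) ^ 3 * (δ : ℝ) ^ 3 :=
      mul_le_mul h4 h7 (by positivity) (by positivity)
    calc 64 * (‖σ (p.2 : F)‖ * ‖σ (d : F)‖ ^ 3) ≤ 64 * (((B : ℝ) + 1) ^ 3 * (δ : ℝ) ^ 3) := by
          linarith
      _ ≤ (6 * ((B : ℝ) + 1) * δ) ^ 3 := by
        have h6 : 0 ≤ ((B : ℝ) + 1) ^ 3 * (δ : ℝ) ^ 3 := by positivity
        nlinarith

theorem sc_inj {p p' : 𝓞 F × 𝓞 F} (h : sc p.1 p.2 = sc p'.1 p'.2) : p = p' := by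
  unfold sc at h
  have c5 := congrArg (fun f : (𝓞 F)[X] => f.coeff 1) h
  have c6 := congrArg (fun f : (𝓞 F)[X] => f.coeff 0) h
  simp only [pol_coeff1, pol_coeff0] at c5 c6
  have h16 : (16 : 𝓞 F) ≠ 0 := by norm_num
  have h64 : (64 : 𝓞 F) ≠ 0 := by norm_num
  exact Prod.ext (mul_left_cancel₀ h16 c5) (mul_left_cancel₀ h64 c6)

end

/-- The conclusion of `core`. -/
def S_COR : Prop := ∀ (F : Type) [Field F] [NumberField F] (W₀ : ℕ), 0 < W₀ → ∀ ε : ℝ, 0 < ε →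
    ∃ (R : ℕ) (𝒟 : Finset ℕ), 0 < R ∧ W₀ ∣ R ∧ 1 ∈ 𝒟 ∧
    (∀ D ∈ 𝒟, Squarefree D ∧ D % (8 * W₀) = 1 % (8 * W₀) ∧ D ∣ R) ∧
    ∃ B₀ : ℕ, ∀ B ≥ B₀, {f : (𝓞 F)[X] | Ht 1 B f}.Finite ∧
    (({f : (𝓞 F)[X] | Ht 1 B f ∧ Irreducible (fF f) ∧ ∃ p : 𝓞 F × 𝓞 F,
      f.coeff 1 = 16 * p.1 ∧ f.coeff 0 = 64 * p.2 ∧ ¬ Tw R 𝒟 p}.ncard : ℝ)) ≤
      ε * (B : ℝ) ^ (5 * Module.finrank ℚ F)

/-- All but a proportion `ε` of the curves have good twists. -/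
theorem partA (hcor : S_COR) (F : Type) [Field F] [NumberField F] (W₀ : ℕ) (hW₀ : 0 < W₀)
    (𝒮 : Finset (𝓞 F)) (h𝒮 : ∀ d ∈ 𝒮, d ≠ 0) (ε : ℝ) (hε : 0 < ε) :
    ∃ (R : ℕ) (𝒟 : Finset ℕ), 0 < R ∧ W₀ ∣ R ∧ 1 ∈ 𝒟 ∧
    (∀ D ∈ 𝒟, Squarefree D ∧ D % (8 * W₀) = 1 % (8 * W₀) ∧ D ∣ R) ∧
    ∃ Y₀ : ℝ, ∀ Y ≥ Y₀, 0 < {p : 𝓞 F × 𝓞 F | Crv Y p}.ncard ∧
    (({p : 𝓞 F × 𝓞 F | Crv Y p ∧ ∃ d ∈ 𝒮, ¬ Tw R 𝒟 (twp p d)}.ncard : ℝ)) ≤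
      ε * ({p : 𝓞 F × 𝓞 F | Crv Y p}.ncard : ℝ) := by
  obtain ⟨c, hc, Bl, hlow⟩ := crv_lower F
  obtain ⟨C₂, hC₂, hred⟩ := red_le F
  obtain ⟨n, hn⟩ : ∃ n, n = Module.finrank ℚ F := ⟨_, rfl⟩
  have hn1 : 1 ≤ n := by
    rw [hn]
    exact Module.finrank_pos
  rw [← hn] at hlow hred
  -- the size of the elements of `𝒮`
  obtain ⟨δ, hδ1, hδ⟩ : ∃ δ : ℕ, 1 ≤ δ ∧ ∀ d ∈ 𝒮, ∀ σ : F →+* ℂ, ‖σ (d : F)‖ ≤ δ := by
    obtain ⟨m, hm⟩ := exists_nat_ge (∑ d ∈ 𝒮, ∑ σ : F →+* ℂ, ‖σ (d : F)‖)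
    refine ⟨m + 1, by omega, fun d hd σ => ?_⟩
    have h1 : ‖σ (d : F)‖ ≤ ∑ σ : F →+* ℂ, ‖σ (d : F)‖ :=
      Finset.single_le_sum (f := fun σ : F →+* ℂ => ‖σ (d : F)‖) (fun _ _ => norm_nonneg _)
        (Finset.mem_univ σ)
    have h2 : ∑ σ : F →+* ℂ, ‖σ (d : F)‖ ≤ ∑ d ∈ 𝒮, ∑ σ : F →+* ℂ, ‖σ (d : F)‖ :=
      Finset.single_le_sum (f := fun d : 𝓞 F => ∑ σ : F →+* ℂ, ‖σ (d : F)‖)
        (fun _ _ => Finset.sum_nonneg fun _ _ => norm_nonneg _) hd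
    push_cast
    linarith
  obtain ⟨s, hs⟩ : ∃ s : ℝ, s = (𝒮.card : ℝ) := ⟨_, rfl⟩
  have hs0 : 0 ≤ s := by rw [hs]; exact Nat.cast_nonneg _
  obtain ⟨R, 𝒟, hR, hWR, h1D, hD, B₀, hB₀⟩ := hcor F W₀ hW₀
    (ε / 2 * c / ((s + 1) * (12 * δ) ^ (5 * n))) (by positivity)
  rw [← hn] at hB₀
  obtain ⟨m, hm⟩ := exists_nat_ge (2 * C₂ / (ε * c))
  obtain ⟨B₁, hB₁⟩ : ∃ B₁ : ℕ, B₁ = max (max Bl B₀) (max m 1) := ⟨_, rfl⟩
  have hB₁1 : 1 ≤ B₁ := by rw [hB₁]; exact (le_max_right _ _).trans (le_max_right _ _)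
  refine ⟨R, 𝒟, hR, hWR, h1D, hD, 27 * (B₁ : ℝ) ^ 6, fun Y hY => ?_⟩
  obtain ⟨B, hBB, hBY, hYB⟩ := exists_B B₁ Y hB₁1 hY
  have hB1 : 1 ≤ B := hB₁1.trans hBB
  have hBr : (1 : ℝ) ≤ B := by exact_mod_cast hB1
  have hBBl : Bl ≤ B := by
    refine le_trans ?_ hBB
    rw [hB₁]
    exact (le_max_left _ _).trans (le_max_left _ _)
  have hBB0 : B₀ ≤ B := by
    refine le_trans ?_ hBB
    rw [hB₁]
    exact (le_max_right _ _).trans (le_max_left _ _)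
  have hBm : m ≤ B := by
    refine le_trans ?_ hBB
    rw [hB₁]
    exact (le_max_left _ _).trans (le_max_right _ _)
  have hl := hlow B hBBl hB1 Y hBY
  have hr := hred B hB1 Y hYB
  have hfin := crv_finite (F := F) Pool.Agent.N490.PF.pts Y
  have hB0 : (0 : ℝ) < (B : ℝ) ^ (5 * n) := by positivity
  refine ⟨?_, ?_⟩
  · have h1 : (0 : ℝ) < ({p : 𝓞 F × 𝓞 F | Crv Y p}.ncard : ℝ) :=
      lt_of_lt_of_le (by positivity) hl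
    exact_mod_cast h1
  obtain ⟨B', hB'⟩ : ∃ B', B' = 6 * (B + 1) * δ := ⟨_, rfl⟩
  have hB'0 : B₀ ≤ B' := by
    rw [hB']
    calc B₀ ≤ B := hBB0
      _ ≤ 6 * (B + 1) := by omega
      _ ≤ 6 * (B + 1) * δ := Nat.le_mul_of_pos_right _ (by omega)
  obtain ⟨hfinH, hE⟩ := hB₀ B' hB'0
  obtain ⟨E, hEd⟩ : ∃ E : Set (𝓞 F)[X], E = {f : (𝓞 F)[X] | Ht 1 B' f ∧ Irreducible (fF f) ∧
    ∃ p : 𝓞 F × 𝓞 F, f.coeff 1 = 16 * p.1 ∧ f.coeff 0 = 64 * p.2 ∧ ¬ Tw R 𝒟 p} := ⟨_, rfl⟩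
  rw [← hEd] at hE
  have hEf : E.Finite := hfinH.subset (by rw [hEd]; exact fun f hf => hf.1)
  -- the sets
  obtain ⟨V, hV⟩ : ∃ V : 𝓞 F → Set (𝓞 F × 𝓞 F), V = fun d => {p : 𝓞 F × 𝓞 F | Crv Y p ∧
    Irreducible (cu (p.1 : F) (p.2 : F)) ∧ ¬ Tw R 𝒟 (twp p d)} := ⟨_, rfl⟩
  have hVf : ∀ d, (V d).Finite := fun d => hfin.subset (by rw [hV]; exact fun p hp => hp.1)
  have hVc : ∀ d ∈ 𝒮, (V d).ncard ≤ E.ncard := by
    intro d hd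
    refine Set.ncard_le_ncard_of_injOn (fun p => sc (twp p d).1 (twp p d).2) ?_ ?_ hEf
    · intro p hp
      rw [hV] at hp
      obtain ⟨hp1, hp2, hp3⟩ := hp
      rw [hEd]
      refine ⟨?_, irr_sc (irr_twp (h𝒮 d hd) hp2), twp p d, ?_, ?_, hp3⟩
      · rw [hB']
        exact ht_scd hYB hp1 (hδ d hd)
      · exact pol_coeff1 _ _
      · exact pol_coeff0 _ _
    · intro p _ p' _ h
      exact twp_inj (h𝒮 d hd) (sc_inj h)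
  have hsub : {p : 𝓞 F × 𝓞 F | Crv Y p ∧ ∃ d ∈ 𝒮, ¬ Tw R 𝒟 (twp p d)} ⊆
      (⋃ d ∈ 𝒮, V d) ∪ {p : 𝓞 F × 𝓞 F | Crv Y p ∧ ¬ Irreducible (cu (p.1 : F) (p.2 : F))} := by
    rintro p ⟨hp, d, hd, hT⟩
    by_cases hi : Irreducible (cu (p.1 : F) (p.2 : F))
    · left
      rw [Set.mem_iUnion₂]
      refine ⟨d, hd, ?_⟩
      rw [hV]
      exact ⟨hp, hi, hT⟩
    · exact Or.inr ⟨hp, hi⟩
  have hUf : (⋃ d ∈ 𝒮, V d).Finite := Set.Finite.biUnion (Finset.finite_toSet _) fun d _ => hVf d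
  have h1 := Set.ncard_le_ncard hsub (hUf.union (hfin.subset fun p hp => hp.1))
  have h2 := Set.ncard_union_le (⋃ d ∈ 𝒮, V d)
    {p : 𝓞 F × 𝓞 F | Crv Y p ∧ ¬ Irreducible (cu (p.1 : F) (p.2 : F))}
  have h3 : (⋃ d ∈ 𝒮, V d).ncard ≤ ∑ d ∈ 𝒮, (V d).ncard :=
    Pool.Agent.N270.PJ.ncard_biUnion_le V 𝒮
  have h4 : ∑ d ∈ 𝒮, (V d).ncard ≤ 𝒮.card * E.ncard := by
    rw [← smul_eq_mul, ← Finset.sum_const]
    exact Finset.sum_le_sum hVc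
  obtain ⟨Z, hZ⟩ : ∃ Z : Set (𝓞 F × 𝓞 F), Z = {p : 𝓞 F × 𝓞 F | Crv Y p ∧
    ¬ Irreducible (cu (p.1 : F) (p.2 : F))} := ⟨_, rfl⟩
  rw [← hZ] at h1 h2 hr
  have h5 : (({p : 𝓞 F × 𝓞 F | Crv Y p ∧ ∃ d ∈ 𝒮, ¬ Tw R 𝒟 (twp p d)}.ncard : ℕ) : ℝ) ≤
      s * E.ncard + Z.ncard := by
    rw [hs]
    exact_mod_cast h1.trans (h2.trans (Nat.add_le_add_right (h3.trans h4) _))
  refine h5.trans ?_
  obtain ⟨N, hN⟩ : ∃ N : ℝ, N = ({p : 𝓞 F × 𝓞 F | Crv Y p}.ncard : ℝ) := ⟨_, rfl⟩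
  rw [← hN] at hl ⊢
  have h6 : s * (E.ncard : ℝ) ≤ ε / 2 * N := by
    have h7 : ((B' : ℕ) : ℝ) ^ (5 * n) ≤ (12 * δ) ^ (5 * n) * (B : ℝ) ^ (5 * n) := by
      rw [← mul_pow]
      refine pow_le_pow_left₀ (Nat.cast_nonneg _) ?_ _
      rw [hB']
      push_cast
      have hδ0 : (0 : ℝ) ≤ δ := Nat.cast_nonneg _
      nlinarith
    have hs1 : 0 < s + 1 := by linarith
    have hδp : (0 : ℝ) < (12 * (δ : ℝ)) ^ (5 * n) := by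
      have : (0 : ℝ) < δ := by exact_mod_cast hδ1
      positivity
    calc s * (E.ncard : ℝ) ≤ (s + 1) * (ε / 2 * c / ((s + 1) * (12 * δ) ^ (5 * n)) *
          (B' : ℝ) ^ (5 * n)) := by
          have h8 : (0 : ℝ) ≤ E.ncard := Nat.cast_nonneg _
          exact mul_le_mul (by linarith) hE h8 (by linarith)
      _ ≤ (s + 1) * (ε / 2 * c / ((s + 1) * (12 * δ) ^ (5 * n)) *
          ((12 * δ) ^ (5 * n) * (B : ℝ) ^ (5 * n))) := by gcongr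
      _ = ε / 2 * (c * (B : ℝ) ^ (5 * n)) := by
          field_simp
      _ ≤ ε / 2 * N := mul_le_mul_of_nonneg_left hl (by positivity)
  have h9 : (Z.ncard : ℝ) ≤ ε / 2 * N := by
    refine hr.trans ?_
    have h10 : 2 * C₂ / (ε * c) ≤ (B : ℝ) ^ (2 * n) := by
      refine hm.trans ?_
      have h11 : (m : ℝ) ≤ B := by exact_mod_cast hBm
      refine h11.trans (le_self_pow₀ hBr (by omega))
    calc C₂ * (B : ℝ) ^ (3 * n) = ε / 2 * c * (2 * C₂ / (ε * c)) * (B : ℝ) ^ (3 * n) := by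
          field_simp
      _ ≤ ε / 2 * c * (B : ℝ) ^ (2 * n) * (B : ℝ) ^ (3 * n) := by gcongr
      _ = ε / 2 * (c * (B : ℝ) ^ (5 * n)) := by
          rw [show 5 * n = 2 * n + 3 * n by ring, pow_add]
          ring
      _ ≤ ε / 2 * N := mul_le_mul_of_nonneg_left hl (by positivity)
  linarith

/-! ### The average of the smallest rank -/

section

variable {F : Type} [Field F] [NumberField F]

/-- The smallest rank of the twists by the numbers in `𝒟`. -/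
noncomputable def mr (𝒟 : Finset ℕ) (p : 𝓞 F × 𝓞 F) : ℕ :=
  sInf {r : ℕ | ∃ D ∈ 𝒟, r = rk (twp p (D : 𝓞 F))}

theorem mr_le {𝒟 : Finset ℕ} {p : 𝓞 F × 𝓞 F} {D : ℕ} (h : D ∈ 𝒟) : mr 𝒟 p ≤ rk (twp p (D : 𝓞 F)) :=
  Nat.sInf_le ⟨D, h, rfl⟩

theorem algmap_self (x : 𝓞 F) (P : Ideal (𝓞 F))
    (h : @algebraMap (𝓞 F) (𝓞 F) _ _ (NumberField.inst_ringOfIntegersAlgebra F F) x ∈ P) :
    x ∈ P := by
  have e : @algebraMap (𝓞 F) (𝓞 F) _ _ (NumberField.inst_ringOfIntegersAlgebra F F) x = x :=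
    RingOfIntegers.coe_injective rfl
  rwa [e] at h

theorem unr_self (v : HeightOneSpectrum (𝓞 F)) : Unr F F v := by
  intro P hP
  have h0 : v.asIdeal ≤ P.asIdeal ^ 2 := fun y hy =>
    algmap_self y _ (hP (Ideal.mem_map_of_mem _ hy))
  have h1 : v.asIdeal ≤ P.asIdeal := h0.trans (Ideal.pow_le_self two_ne_zero)
  have h2 : v.asIdeal = P.asIdeal := v.isMaximal.eq_of_le P.isPrime.ne_top h1
  rw [h2] at h0
  exact not_lt_of_ge h0 (Ideal.pow_lt_self P.asIdeal P.ne_bot P.isPrime.ne_top 2 le_rfl)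

theorem deg1_self (v : HeightOneSpectrum (𝓞 F)) : Deg1 F F v := by
  intro P _ x
  refine ⟨x, ?_⟩
  have e : @algebraMap (𝓞 F) (𝓞 F) _ _ (NumberField.inst_ringOfIntegersAlgebra F F) x = x :=
    RingOfIntegers.coe_injective rfl
  change x - @algebraMap (𝓞 F) (𝓞 F) _ _ (NumberField.inst_ringOfIntegersAlgebra F F) x ∈ _
  rw [e, sub_self]
  exact Ideal.zero_mem _

theorem cls_self (R : ℕ) (p : 𝓞 F × 𝓞 F) : ClsM F F R p :=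
  ⟨fun v _ => ⟨unr_self v, deg1_self v⟩, fun v _ => unr_self v,
    fun σ => Or.inr ⟨σ, RingHom.ext fun x => rfl⟩⟩

theorem rk_zero {p : 𝓞 F × 𝓞 F} (h : Finite (Pt (sW (p.1 : F) (p.2 : F)) F)) : rk p = 0 := by
  unfold rk
  haveI := h
  refine Module.finrank_eq_zero_of_rank_eq_zero ?_
  rw [rank_eq_zero_iff]
  intro x
  obtain ⟨n, hn, hx⟩ := (isOfFinAddOrder_of_finite x).exists_nsmul_eq_zero
  refine ⟨(n : ℤ), by exact_mod_cast hn.ne', ?_⟩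
  rw [natCast_zsmul]
  exact hx

/-- A good twist over `F` itself. -/
theorem tw_self {R : ℕ} {𝒟 : Finset ℕ} {p : 𝓞 F × 𝓞 F} (h : Tw R 𝒟 p) :
    ∃ D ∈ 𝒟, GoodM F F (twp p (D : 𝓞 F)) := by
  obtain ⟨D, hD, h⟩ := h
  exact ⟨D, hD, h F 0 (by rw [Module.finrank_self, pow_zero]) (cls_self R p)⟩

theorem mr_zero {R : ℕ} {𝒟 : Finset ℕ} {p : 𝓞 F × 𝓞 F} (h : Tw R 𝒟 p) : mr 𝒟 p = 0 := by
  obtain ⟨D, hD, h⟩ := tw_self h
  have h1 := mr_le (p := p) hD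
  rw [rk_zero h.fin] at h1
  omega

end

theorem nat_le_pow (n₀ : ℕ) (hn : 1 ≤ n₀) (r : ℕ) :
    (r : ℝ) ≤ n₀ + (n₀ / 2 ^ n₀) * 2 ^ r := by
  rcases le_or_gt r n₀ with h | h
  · have h1 : (r : ℝ) ≤ n₀ := by exact_mod_cast h
    have h2 : (0 : ℝ) ≤ (n₀ / 2 ^ n₀) * 2 ^ r := by positivity
    linarith
  · obtain ⟨k, rfl⟩ : ∃ k, r = n₀ + k := ⟨r - n₀, by omega⟩
    have h1 : ((n₀ : ℝ) / 2 ^ n₀) * 2 ^ (n₀ + k) = n₀ * 2 ^ k := by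
      rw [pow_add]
      field_simp
    rw [h1]
    have h2 : (k : ℝ) ≤ 2 ^ k := by exact_mod_cast (Nat.lt_two_pow_self (n := k)).le
    have h3 : (1 : ℝ) ≤ n₀ := by exact_mod_cast hn
    have h4 : (0 : ℝ) ≤ 2 ^ k := by positivity
    push_cast
    nlinarith

/-- **The theorem.** -/
theorem main (hcor : S_COR) (hAVG : S_AVG) (F : Type) [Field F] [NumberField F] (W₀ : ℕ)
    (hW₀ : 0 < W₀) (𝒮 : Finset (𝓞 F)) (h𝒮 : ∀ d ∈ 𝒮, d ≠ 0) (ε : ℝ) (hε : 0 < ε) :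
    ∃ (R : ℕ) (𝒟 : Finset ℕ), 0 < R ∧ W₀ ∣ R ∧ 1 ∈ 𝒟 ∧
    (∀ D ∈ 𝒟, Squarefree D ∧ D % (8 * W₀) = 1 % (8 * W₀) ∧ D ∣ R) ∧
    ∃ Y₀ : ℝ, ∀ Y ≥ Y₀, 0 < {p : 𝓞 F × 𝓞 F | Crv Y p}.ncard ∧
    (({p : 𝓞 F × 𝓞 F | Crv Y p ∧ ∃ d ∈ 𝒮, ¬ Tw R 𝒟 (twp p d)}.ncard : ℝ)) ≤
      ε * ({p : 𝓞 F × 𝓞 F | Crv Y p}.ncard : ℝ) ∧
    ∀ T : Finset (𝓞 F × 𝓞 F), (∀ p ∈ T, Crv Y p) → ∀ d ∈ 𝒮,
      ∑ p ∈ T, (mr 𝒟 (twp p d) : ℝ) ≤ ε * ({p : 𝓞 F × 𝓞 F | Crv Y p}.ncard : ℝ) := by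
  have hA : ∀ d : 𝓞 F, ∃ C : ℝ, 0 < C ∧ ∃ Y₀ : ℝ, d ∈ 𝒮 → ∀ Y ≥ Y₀, ∀ T : Finset (𝓞 F × 𝓞 F),
      (∀ p ∈ T, Crv Y p) → ∑ p ∈ T, (2 : ℝ) ^ rk (twp p d) ≤
        C * ({p : 𝓞 F × 𝓞 F | Crv Y p}.ncard : ℝ) := by
    intro d
    by_cases hd : d ∈ 𝒮
    · obtain ⟨C, hC, Y₀, h⟩ := hAVG F d (h𝒮 d hd)
      exact ⟨C, hC, Y₀, fun _ => h⟩
    · exact ⟨1, one_pos, 0, fun h => absurd h hd⟩
  choose Cf hCf Yf hYf using hA
  obtain ⟨C, hC⟩ : ∃ C : ℝ, C = 1 + ∑ d ∈ 𝒮, Cf d := ⟨_, rfl⟩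
  have hCs : 0 ≤ ∑ d ∈ 𝒮, Cf d := Finset.sum_nonneg fun d _ => (hCf d).le
  have hC0 : 0 < C := by rw [hC]; linarith
  have hCd : ∀ d ∈ 𝒮, Cf d ≤ C := fun d hd => by
    have := Finset.single_le_sum (f := Cf) (fun d _ => (hCf d).le) hd
    rw [hC]
    linarith
  -- the number `n₀`
  obtain ⟨n₀, hn₀, hn₁⟩ : ∃ n₀ : ℕ, 1 ≤ n₀ ∧ (n₀ : ℝ) / 2 ^ n₀ * C ≤ ε / 2 := by
    have h1 : Filter.Tendsto (fun n : ℕ => (n : ℝ) / 2 ^ n) Filter.atTop (nhds 0) := by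
      have := tendsto_pow_const_div_const_pow_of_one_lt 1 (show (1 : ℝ) < 2 by norm_num)
      simpa using this
    have h2 := (h1.mul_const C).eventually (gt_mem_nhds (show (0 : ℝ) * C < ε / 2 by
      rw [zero_mul]; positivity))
    obtain ⟨n₀, h3, h4⟩ := (h2.and (Filter.eventually_ge_atTop 1)).exists
    exact ⟨n₀, h4, h3.le⟩
  have hn0 : (1 : ℝ) ≤ n₀ := by exact_mod_cast hn₀
  obtain ⟨R, 𝒟, hR, hWR, h1D, hD, Y₀, hY₀⟩ := partA hcor F W₀ hW₀ 𝒮 h𝒮 (ε / (2 * n₀))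
    (by positivity)
  refine ⟨R, 𝒟, hR, hWR, h1D, hD, max Y₀ (∑ d ∈ 𝒮, |Yf d|), fun Y hY => ?_⟩
  obtain ⟨h1, h2⟩ := hY₀ Y ((le_max_left _ _).trans hY)
  obtain ⟨N, hN⟩ : ∃ N : ℝ, N = ({p : 𝓞 F × 𝓞 F | Crv Y p}.ncard : ℝ) := ⟨_, rfl⟩
  rw [← hN] at h2 ⊢
  have hN0 : 0 ≤ N := by rw [hN]; exact Nat.cast_nonneg _
  have hfin := crv_finite (F := F) Pool.Agent.N490.PF.pts Y
  obtain ⟨X, hX⟩ : ∃ X : Set (𝓞 F × 𝓞 F), X = {p : 𝓞 F × 𝓞 F | Crv Y p ∧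
    ∃ d ∈ 𝒮, ¬ Tw R 𝒟 (twp p d)} := ⟨_, rfl⟩
  rw [← hX] at h2 ⊢
  have hXf : X.Finite := hfin.subset (by rw [hX]; exact fun p hp => hp.1)
  refine ⟨h1, h2.trans ?_, fun T hT d hd => ?_⟩
  · refine mul_le_mul_of_nonneg_right ?_ hN0
    exact div_le_self hε.le (by linarith)
  · have hYd : Yf d ≤ Y := by
      refine (le_abs_self _).trans ?_
      refine (Finset.single_le_sum (f := fun d => |Yf d|) (fun _ _ => abs_nonneg _) hd).trans ?_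
      exact (le_max_right _ _).trans hY
    have h3 := hYf d hd Y hYd T hT
    rw [← hN] at h3
    have h4 : ∀ p ∈ T, (mr 𝒟 (twp p d) : ℝ) ≤
        (if p ∈ X then (n₀ : ℝ) else 0) + (n₀ / 2 ^ n₀) * 2 ^ rk (twp p d) := by
      intro p hp
      have h5 : (0 : ℝ) ≤ (n₀ / 2 ^ n₀) * 2 ^ rk (twp p d) := by positivity
      by_cases hpX : p ∈ X
      · rw [if_pos hpX]
        have h6 := mr_le (p := twp p d) h1D
        rw [Nat.cast_one, twp_one] at h6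
        have h7 : (mr 𝒟 (twp p d) : ℝ) ≤ (rk (twp p d) : ℝ) := by exact_mod_cast h6
        exact h7.trans (nat_le_pow n₀ hn₀ _)
      · have h6 : Tw R 𝒟 (twp p d) := by
          by_contra hcon
          apply hpX
          rw [hX]
          exact ⟨hT p hp, d, hd, hcon⟩
        rw [if_neg hpX, mr_zero h6]
        push_cast
        linarith
    refine (Finset.sum_le_sum h4).trans ?_
    rw [Finset.sum_add_distrib, ← Finset.mul_sum, ← Finset.sum_filter, Finset.sum_const,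
      nsmul_eq_mul]
    have h5 : ((T.filter fun p => p ∈ X).card : ℝ) ≤ X.ncard := by
      have : (T.filter fun p => p ∈ X).card ≤ X.ncard := by
        rw [← Set.ncard_coe_finset]
        exact Set.ncard_le_ncard (fun p hp => (Finset.mem_filter.1 (Finset.mem_coe.1 hp)).2) hXf
      exact_mod_cast this
    have h6 : ((T.filter fun p => p ∈ X).card : ℝ) * n₀ ≤ ε / 2 * N := by
      calc ((T.filter fun p => p ∈ X).card : ℝ) * n₀ ≤ (ε / (2 * n₀) * N) * n₀ :=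
            mul_le_mul_of_nonneg_right (h5.trans h2) (by linarith)
        _ = ε / 2 * N := by field_simp
    have h7 : (n₀ : ℝ) / 2 ^ n₀ * ∑ p ∈ T, (2 : ℝ) ^ rk (twp p d) ≤ ε / 2 * N := by
      have h8 : ∑ p ∈ T, (2 : ℝ) ^ rk (twp p d) ≤ C * N :=
        h3.trans (mul_le_mul_of_nonneg_right (hCd d hd) hN0)
      calc (n₀ : ℝ) / 2 ^ n₀ * ∑ p ∈ T, (2 : ℝ) ^ rk (twp p d) ≤ (n₀ : ℝ) / 2 ^ n₀ * (C * N) :=
            mul_le_mul_of_nonneg_left h8 (by positivity)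
        _ = (n₀ : ℝ) / 2 ^ n₀ * C * N := by ring
        _ ≤ ε / 2 * N := mul_le_mul_of_nonneg_right hn₁ hN0
    linarith

end Pool.Agent.H458.AU
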