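import Pool.Agent.H458.AU.Def
import Pool.Agent.H459.UD.FinD

/-!
# Project AU (helper458): the twist of one curve

From `Pool.Agent.H459.UD.twD` (helper459).
-/

set_option autoImplicit false
set_option linter.all false

open Polynomial Matrix IsDedekindDomain NumberField
open scoped Classical

namespace Pool.Agent.H458.AU

open Pool.Agent.H459.UF (Unr Deg1 fo GoodM)
open Pool.Agent.H459.UT (GoodT FamT goodm_of)
open Pool.Agent.H459.UD (twD AdmF ht_un pol_scale)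
open Pool.Agent.N783.PF (Bd Cg sp rd Ht GoodS LBad Weak dsc fF Dp SelZero)
open Pool.Agent.N61.PF (pol pol_monic pol_natDegree pol_coeff0 pol_coeff1 pol_coeff2 eq_pol)

/-- The class of extensions `M` of `F` which belongs to the integer `R` and the curve
`y ^ 2 = x ^ 3 + a x + b`, `p = (a, b)`. -/
structure ClsM (F M : Type) [Field F] [NumberField F] [Field M] [NumberField M] [Algebra F M]
    (R : ℕ) (p : 𝓞 F × 𝓞 F) : Prop where
  spl : ∀ v : HeightOneSpectrum (𝓞 F), (R : 𝓞 F) ∈ v.asIdeal → Unr F M v ∧ Deg1 F M v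
  unr : ∀ v : HeightOneSpectrum (𝓞 F), (∃ t : 𝓞 F, t ^ 3 + p.1 * t + p.2 ∈ v.asIdeal) → Unr F M v
  real : ∀ σ : F →+* ℝ, 0 < σ ((4 * p.1 ^ 3 + 27 * p.2 ^ 2 : 𝓞 F) : F) ∨
    ∃ ρ : M →+* ℝ, ρ.comp (algebraMap F M) = σ

theorem pl_eq {F : Type} [Field F] [NumberField F] (a b : 𝓞 F) : pl a b = pol a b := rfl

section

variable {F : Type} [Field F] [NumberField F]

theorem good_S {W : ℕ} {S : Finset ℕ} {𝔮 : ℕ → Ideal (𝓞 F)} {a b : ℕ → 𝓞 F} (hW : 0 < W)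
    (hS : ∀ q ∈ S, PrQ W q (𝔮 q)) (hG : ∀ q ∈ S, Gq q (𝔮 q) (a q) (b q)) :
    GoodS 1 W S 𝔮 (fun q => X ^ 2 + C (a q)) (fun q => pl (a q) (b q)) := by
  intro q hq
  have h1 := hS q hq
  have h2 := hG q hq
  obtain ⟨h8, h3⟩ := h1.mod8 hW
  refine ⟨h1.pr, h1.big, by omega, h8, h1.unr, h1.qp, h1.mem, monic_X_pow_add_C _ two_ne_zero,
    natDegree_X_pow_add_C, h2.2.1, ?_, ?_, ?_, ?_, h2.2.2⟩
  · exact pol_monic _ _
  · exact pol_natDegree _ _
  · exact pol_coeff2 _ _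
  · intro j
    have e : pl (a q) (b q) - X * (X ^ 2 + C (a q)) = C (b q) := by
      unfold pl
      ring
    rw [← coeff_sub, e, coeff_C]
    split_ifs
    · exact h2.1
    · exact Ideal.zero_mem _

/-- From a polynomial which is not bad to a good twist. -/
theorem tw_of (F : Type) [Field F] [NumberField F] : ∃ κ : ℕ,
    ∀ (B N W : ℕ) (S : Finset ℕ) (𝔮 : ℕ → Ideal (𝓞 F)) (f : (𝓞 F)[X]), κ ≤ W → 0 < W → 2 ∣ W →
    (∀ q ∈ S, PrQ W q (𝔮 q)) → Ht 1 B f → (∀ q ∈ S, Gq q (𝔮 q) (f.coeff 1) (f.coeff 0)) →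
    (∀ v : HeightOneSpectrum (𝓞 F), (W : 𝓞 F) ∉ v.asIdeal → dsc 1 f ∈ v.asIdeal ^ 2 →
      B ^ Module.finrank ℚ F ≤ Ideal.absNorm v.asIdeal ^ 2 ∧ Weak v.asIdeal f) →
    2 ^ κ * B ≤ 4 ^ N → 1 ≤ B → ¬ BadS N κ S 𝔮 f → Irreducible (fF f) →
    ∀ (a b : 𝓞 F), f.coeff 1 = 16 * a → f.coeff 0 = 64 * b → ∀ R : ℕ, W ∣ R → (∀ q ∈ S, q ∣ R) →
    ∃ J ⊆ S, ∀ (M : Type) [Field M] [NumberField M] [Algebra F M] [IsGalois F M] (n : ℕ),
      Module.finrank F M = 2 ^ n → ClsM F M R (a, b) →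
      GoodM F M (a * ((Dp J : ℕ) : 𝓞 F) ^ 2, b * ((Dp J : ℕ) : 𝓞 F) ^ 3) := by
  obtain ⟨κ, hκ⟩ := twD F
  refine ⟨κ, fun B N W S 𝔮 f hW hW0 h2W hS hHt hG hwk hBN hB hnb hirr a b ha hb R hWR hSR => ?_⟩
  have hf : f = pl (f.coeff 1) (f.coeff 0) := eq_pol hHt
  have hGS : GoodS 1 W S 𝔮 (fun _ => X ^ 2 + C (f.coeff 1)) (fun _ => f) := by
    have h1 := good_S (a := fun _ => f.coeff 1) (b := fun _ => f.coeff 0) hW0 hS hG
    rwa [← hf] at h1
  obtain ⟨J, hJ, h1, -, h2⟩ := hκ B N W W f S 𝔮 (fun _ => X ^ 2 + C (f.coeff 1)) (fun _ => f) f hW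
    hW0.ne' h2W dvd_rfl ⟨hHt.mon, hHt.deg, hHt.tr, hW0, h2W, fun v hv hnv => absurd hv hnv⟩ hGS
    (fun q hq => (hS q hq).mod)
    ⟨hHt, fun j => by rw [sub_self]; exact Ideal.zero_mem _,
      fun q hq j => by rw [sub_self]; exact Ideal.zero_mem _, fun v hv hd => hwk v hv hd⟩
    hBN hB hnb hirr a b ha hb
  refine ⟨J, hJ, fun M _ _ _ _ n hn hC => ?_⟩
  have hJR : ((Dp J : ℕ)) ∣ R := by
    refine Finset.prod_primes_dvd R (fun q hq => Nat.prime_iff.1 (hS q (hJ hq)).pr)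
      fun q hq => hSR q (hJ hq)
  have hht : Ht 1 (B * Dp J) ((pol a b).scaleRoots ((Dp J : ℕ) : 𝓞 F)) := ht_un ha hb hHt le_rfl
  have hc1 : ((pol a b).scaleRoots ((Dp J : ℕ) : 𝓞 F)).coeff 1 = a * ((Dp J : ℕ) : 𝓞 F) ^ 2 := by
    rw [pol_scale, pol_coeff1]
  have hc0 : ((pol a b).scaleRoots ((Dp J : ℕ) : 𝓞 F)).coeff 0 = b * ((Dp J : ℕ) : 𝓞 F) ^ 3 := by
    rw [pol_scale, pol_coeff0]
  have hA : AdmF F M {v | ∃ q ∈ S, v.asIdeal = 𝔮 q} W
      ((pol a b).scaleRoots ((Dp J : ℕ) : 𝓞 F)) := by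
    refine ⟨?_, ?_, ?_, ?_⟩
    · rintro v ⟨q, hq, hv⟩
      refine hC.spl v ?_
      obtain ⟨m, hm⟩ := hSR q hq
      rw [hm, Nat.cast_mul]
      refine Ideal.mul_mem_right _ _ ?_
      rw [hv]
      exact (hS q hq).mem
    · intro v hv
      refine hC.spl v ?_
      obtain ⟨m, hm⟩ := hWR
      rw [hm, Nat.cast_mul]
      exact Ideal.mul_mem_right _ _ hv
    · rintro v ⟨t, ht⟩
      by_cases hR : (R : 𝓞 F) ∈ v.asIdeal
      · exact (hC.spl v hR).1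
      · have hD : ((Dp J : ℕ) : 𝓞 F) ∉ v.asIdeal := by
          intro h
          apply hR
          obtain ⟨m, hm⟩ := hJR
          rw [hm, Nat.cast_mul]
          exact Ideal.mul_mem_right _ _ h
        refine hC.unr v ?_
        haveI := v.isMaximal
        obtain ⟨d, hd⟩ : ∃ d : 𝓞 F, ((Dp J : ℕ) : 𝓞 F) * d - 1 ∈ v.asIdeal := by
          obtain ⟨d, hd⟩ := Ideal.Quotient.exists_inv (I := v.asIdeal) (hI := v.isMaximal)
            (a := Ideal.Quotient.mk v.asIdeal ((Dp J : ℕ) : 𝓞 F)) (by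
              rwa [Ne, Ideal.Quotient.eq_zero_iff_mem])
          obtain ⟨d, rfl⟩ := Ideal.Quotient.mk_surjective d
          refine ⟨d, ?_⟩
          rw [← Ideal.Quotient.eq_zero_iff_mem, map_sub, map_mul, map_one, hd, sub_self]
        obtain ⟨E, hE⟩ : ∃ E : 𝓞 F, E = ((Dp J : ℕ) : 𝓞 F) := ⟨_, rfl⟩
        have ht' : t ^ 3 + a * E ^ 2 * t + b * E ^ 3 ∈ v.asIdeal := by
          have h3 : ((pol a b).scaleRoots ((Dp J : ℕ) : 𝓞 F)).eval t =
              t ^ 3 + a * E ^ 2 * t + b * E ^ 3 := by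
            rw [pol_scale, Pool.Agent.H459.UF.pol_eval, hE]
          rwa [h3] at ht
        rw [← hE] at hd
        refine ⟨t * d, ?_⟩
        have e1 : (t * d) ^ 3 + a * (t * d) + b = d ^ 3 * (t ^ 3 + a * E ^ 2 * t + b * E ^ 3) -
            (E * d - 1) * ((E * d + 1) * (a * (t * d)) + b * ((E * d) ^ 2 + E * d + 1)) := by ring
        show (t * d) ^ 3 + (a, b).1 * (t * d) + (a, b).2 ∈ v.asIdeal
        simp only
        rw [e1]
        exact Ideal.sub_mem _ (Ideal.mul_mem_left _ _ ht') (Ideal.mul_mem_right _ _ hd)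
    · intro σ
      rcases hC.real σ with h3 | h3
      · left
        rw [hc1, hc0]
        have e2 : σ ((4 * (a * ((Dp J : ℕ) : 𝓞 F) ^ 2) ^ 3 +
            27 * (b * ((Dp J : ℕ) : 𝓞 F) ^ 3) ^ 2 : 𝓞 F) : F) =
            ((Dp J : ℕ) : ℝ) ^ 6 * σ ((4 * a ^ 3 + 27 * b ^ 2 : 𝓞 F) : F) := by
          generalize Dp J = D'
          push_cast
          simp only [map_add, map_mul, map_pow, map_ofNat, map_natCast]
          ring
        rw [e2]
        have hD0 : (0 : ℝ) < ((Dp J : ℕ) : ℝ) ^ 6 := by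
          have : 0 < Dp J := Finset.prod_pos fun q hq => (hS q (hJ hq)).pr.pos
          have : (0 : ℝ) < ((Dp J : ℕ) : ℝ) := by exact_mod_cast this
          positivity
        exact mul_pos hD0 h3
      · exact Or.inr h3
  have h4 := goodm_of hn hht h1 (h2 M n hn hA)
  rwa [hc1, hc0] at h4

end

end Pool.Agent.H458.AU
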